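import Mathlib
import Pool.Agent.TH7.DH.Fin

set_option autoImplicit false

namespace Pool.Agent.TH635.PH.Thr

open Finset Filter Topology Pool.Agent.TH7.DH

/-- `cube d γ` is `γ^d`, the set of all `d`-tuples with entries in `γ`. -/
def cube {N : ℕ} (d : ℕ) (γ : Finset (Fin N)) : Finset (Fin d → Fin N) :=
  Fintype.piFinset (fun _ : Fin d => γ)

/-- A family `S` of subsets of `[N]^d` is good if there are `A ∈ S` and a nonempty `γ ⊆ [N]` with
`A ∩ γ^d = ∅` and `A ∪ γ^d ∈ S`. -/
def Good {N d : ℕ} (S : Finset (Finset (Fin d → Fin N))) : Prop :=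
  ∃ A ∈ S, ∃ γ : Finset (Fin N), γ.Nonempty ∧ Disjoint A (cube d γ) ∧ A ∪ cube d γ ∈ S

lemma not_good_ow {N d : ℕ} {S : Finset (Finset (Fin d → Fin N))} (hS : ¬ Good S) {s : ℕ}
    (φ : Empty ⊕ Fin (s + 1) ↪ Fin N) (A : Finset (Fin d → Fin N)) :
    ¬ (ow φ (fun _ => False) A ∈ S ∧ ow φ (fun _ => True) A ∈ S) := by
  classical
  rintro ⟨h0, h1⟩
  refine hS ⟨_, h0, univ.map φ, ⟨φ (Sum.inr 0), mem_map_of_mem _ (mem_univ _)⟩, ?_, ?_⟩
  · rw [Finset.disjoint_left]
    intro c hc hc'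
    rw [mem_ow] at hc
    rw [cube, Fintype.mem_piFinset] at hc'
    rcases hc with ⟨e, -, he⟩ | ⟨hne, -⟩
    · exact he
    · have : ∀ t, ∃ x, φ x = c t := fun t => by
        have := hc' t
        rw [Finset.mem_map] at this
        obtain ⟨x, -, hx⟩ := this
        exact ⟨x, hx⟩
      choose e he using this
      exact hne ⟨e, funext he⟩
  · have h2 : ow φ (fun _ => False) A ∪ cube d (univ.map φ) = ow φ (fun _ => True) A := by
      ext c
      have h3 : c ∈ cube d (univ.map φ) ↔ ∃ e : Fin d → Empty ⊕ Fin (s + 1),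
          (fun t => φ (e t)) = c := by
        rw [cube, Fintype.mem_piFinset]
        constructor
        · intro hc
          have : ∀ t, ∃ x, φ x = c t := fun t => by
            have := hc t
            rw [Finset.mem_map] at this
            obtain ⟨x, -, hx⟩ := this
            exact ⟨x, hx⟩
          choose e he using this
          exact ⟨e, funext he⟩
        · rintro ⟨e, rfl⟩ t
          exact mem_map_of_mem _ (mem_univ _)
      rw [mem_union, mem_ow, mem_ow, h3]
      by_cases hc : ∃ e : Fin d → Empty ⊕ Fin (s + 1), (fun t => φ (e t)) = c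
      · simp [hc]
      · simp [hc]
    rw [h2]
    exact h1

/-- For every `d ≥ 1` the restricted density polynomial Hales-Jewett statement holds for all
densities above `(2^(d-1) - 1)/(2^d - 1)`: this is `0` for `d = 1` (so that case is Sperner's),
`1/3` for `d = 2` and `3/7` for `d = 3`. -/
theorem thr : ∀ d : ℕ, 1 ≤ d → ∀ δ : ℝ, ((2 : ℝ) ^ (d - 1) - 1) / (2 ^ d - 1) < δ →
    ∃ N₀ : ℕ, ∀ N : ℕ, N₀ ≤ N → ∀ S : Finset (Finset (Fin d → Fin N)),
      δ * (2 : ℝ) ^ (N ^ d) < S.card → Good S := by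
  classical
  intro d hd δ hδ
  by_contra hcon
  push Not at hcon
  -- the bad families
  set B : Set ℕ := {N | ∃ S : Finset (Finset (Fin d → Fin N)),
    δ * (2 : ℝ) ^ (N ^ d) < S.card ∧ ¬ Good S} with hB
  have hfreq : ∃ᶠ N in (atTop : Filter ℕ), N ∈ B := by
    rw [frequently_atTop]
    intro N₀
    obtain ⟨N, hN, S, hS, hg⟩ := hcon N₀
    exact ⟨N, hN, S, hS, hg⟩
  have hne : NeBot ((atTop : Filter ℕ) ⊓ 𝓟 B) := frequently_mem_iff_neBot.1 hfreq
  set V : Ultrafilter ℕ := Ultrafilter.of ((atTop : Filter ℕ) ⊓ 𝓟 B) with hVdef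
  have hVle : (V : Filter ℕ) ≤ (atTop : Filter ℕ) ⊓ 𝓟 B := Ultrafilter.of_le _
  have hV1 : (V : Filter ℕ) ≤ atTop := hVle.trans inf_le_left
  have hV2 : B ∈ (V : Filter ℕ) := hVle (mem_inf_of_right (mem_principal_self B))
  -- choose the families
  have hch : ∀ N : ℕ, ∃ S : Finset (Finset (Fin d → Fin N)), ¬ Good S ∧
      (N ∈ B → δ * (2 : ℝ) ^ (N ^ d) < S.card) := by
    intro N
    by_cases hN : N ∈ B
    · obtain ⟨S, hS, hg⟩ := hN
      exact ⟨S, hg, fun _ => hS⟩
    · refine ⟨∅, ?_, fun h => (hN h).elim⟩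
      rintro ⟨A, hA, -⟩
      exact absurd hA (notMem_empty _)
  choose S hSg hSd using hch
  -- the density
  set a : ℕ → ℝ := fun N => av (fun A => ind (S N) A) with ha
  have hab : ∀ N, |a N| ≤ 1 := fun N => av_abs_le zero_le_one fun A => ind_abs _ _
  have hD := ulim_tendsto (V := V) (a := a) ⟨1, hab⟩
  set D := ulim V a with hDdef
  have hδ0 : 0 < δ := by
    refine lt_of_le_of_lt ?_ hδ
    refine div_nonneg ?_ ?_
    · have : (1 : ℝ) ≤ 2 ^ (d - 1) := one_le_pow₀ (by norm_num)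
      linarith
    · have : (1 : ℝ) ≤ 2 ^ d := one_le_pow₀ (by norm_num)
      linarith
  have hDδ : δ ≤ D := by
    refine ge_of_tendsto hD ?_
    filter_upwards [hV2] with N hN
    rw [ha]
    simp only
    rw [av_ind]
    have h1 : ((Fintype.card (Finset (Fin d → Fin N)) : ℕ) : ℝ) = 2 ^ (N ^ d) := by
      rw [Fintype.card_finset]
      simp
    rw [h1, le_div_iff₀ (by positivity)]
    exact (hSd N hN).le
  have hD1 : D ≤ 1 := le_of_tendsto' hD fun N => (abs_le.1 (hab N)).2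
  have := limit_le hd V hV1 S (fun N s φ A => not_good_ow (hSg N) φ A) D
    (lt_of_lt_of_le hδ0 hDδ) hD1 hD
  linarith

end Pool.Agent.TH635.PH.Thr
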