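import Mathlib

set_option autoImplicit false

/-!
# Planting patterns in product measures on the subsets of a finite set
-/

namespace Pool.Agent.TH635.PH

open Finset

variable {E : Type} [Fintype E] [DecidableEq E]

/-- local weight -/
noncomputable def loc (p : E → ℝ) (X A : Finset E) : ℝ := ∏ c ∈ X, if c ∈ A then p c else 1 - p c

/-- product weight -/
noncomputable def pm (p : E → ℝ) (A : Finset E) : ℝ := ∏ c, if c ∈ A then p c else 1 - p c

/-- indicator -/
noncomputable def io (q : Prop) [Decidable q] : ℝ := if q then 1 else 0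

lemma io_nonneg (q : Prop) [Decidable q] : 0 ≤ io q := by unfold io; split_ifs <;> norm_num

lemma io_le (q : Prop) [Decidable q] : io q ≤ 1 := by unfold io; split_ifs <;> norm_num

lemma io_sq (q : Prop) [Decidable q] : io q * io q = io q := by unfold io; split_ifs <;> norm_num

lemma loc_sum (p : E → ℝ) (X : Finset E) : ∑ D ∈ X.powerset, loc p X D = 1 := by
  have h := Finset.prod_add (fun c => p c) (fun c => 1 - p c) X
  have h1 : ∏ c ∈ X, (p c + (1 - p c)) = 1 := by
    apply Finset.prod_eq_one
    intro c _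
    ring
  rw [h1] at h
  rw [h]
  refine sum_congr rfl fun D hD => ?_
  have hD' := mem_powerset.1 hD
  rw [loc, ← Finset.prod_sdiff hD', mul_comm]
  congr 1
  · exact prod_congr rfl fun c hc => if_pos hc
  · exact prod_congr rfl fun c hc => if_neg (mem_sdiff.1 hc).2

lemma loc_congr (p : E → ℝ) {X A B : Finset E} (h : A ∩ X = B ∩ X) : loc p X A = loc p X B := by
  unfold loc
  refine prod_congr rfl fun c hc => ?_
  have : c ∈ A ↔ c ∈ B := by
    constructor
    · intro h1
      have : c ∈ A ∩ X := mem_inter.2 ⟨h1, hc⟩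
      rw [h] at this
      exact (mem_inter.1 this).1
    · intro h1
      have : c ∈ B ∩ X := mem_inter.2 ⟨h1, hc⟩
      rw [← h] at this
      exact (mem_inter.1 this).1
  by_cases hA : c ∈ A
  · rw [if_pos hA, if_pos (this.1 hA)]
  · rw [if_neg hA, if_neg fun h2 => hA (this.2 h2)]

lemma loc_union (p : E → ℝ) {X Y : Finset E} (h : Disjoint X Y) (A : Finset E) :
    loc p (X ∪ Y) A = loc p X A * loc p Y A := prod_union h

lemma pm_split (p : E → ℝ) (X A : Finset E) : pm p A = loc p X A * loc p Xᶜ A :=
  (Finset.prod_mul_prod_compl X _).symm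

lemma sum_split (X : Finset E) (g : Finset E → ℝ) :
    ∑ A : Finset E, g A = ∑ B ∈ (Xᶜ).powerset, ∑ D ∈ X.powerset, g (B ∪ D) := by
  rw [← Finset.sum_product']
  refine Finset.sum_bij' (fun A _ => (A \ X, A ∩ X)) (fun q _ => q.1 ∪ q.2) ?_ ?_ ?_ ?_ ?_
  · intro A _
    rw [mem_product, mem_powerset, mem_powerset]
    refine ⟨fun x hx => mem_compl.2 (mem_sdiff.1 hx).2, inter_subset_right⟩
  · intro q _
    exact mem_univ _
  · intro A _
    exact sdiff_union_inter A X
  · rintro ⟨B, D⟩ hq
    rw [mem_product, mem_powerset, mem_powerset] at hq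
    have hB : ∀ x ∈ B, x ∉ X := fun x hx => mem_compl.1 (hq.1 hx)
    have hD : ∀ x ∈ D, x ∈ X := fun x hx => hq.2 hx
    refine Prod.ext ?_ ?_
    · ext x
      simp only [mem_sdiff, mem_union]
      constructor
      · rintro ⟨h | h, h'⟩
        · exact h
        · exact absurd (hD x h) h'
      · intro h
        exact ⟨Or.inl h, hB x h⟩
    · ext x
      simp only [mem_inter, mem_union]
      constructor
      · rintro ⟨h | h, h'⟩
        · exact absurd h' (hB x h)
        · exact h
      · intro h
        exact ⟨Or.inr h, hD x h⟩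
  · intro A _
    rw [sdiff_union_inter A X]

/-- the planting identity -/
lemma plant_id (p : E → ℝ) (X P : Finset E) (hP : P ⊆ X) (S : Finset (Finset E)) :
    loc p X P * ∑ A : Finset E, pm p A * io ((A \ X) ∪ P ∈ S)
      = ∑ A : Finset E, pm p A * (io (A ∈ S) * io (A ∩ X = P)) := by
  rw [sum_split X, sum_split X, mul_sum]
  refine sum_congr rfl fun B hB => ?_
  have hB' : ∀ x ∈ B, x ∉ X := fun x hx => mem_compl.1 (mem_powerset.1 hB hx)
  have hBX : B ∩ X = ∅ := by
    ext x
    simp only [mem_inter, notMem_empty, iff_false, not_and]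
    exact hB' x
  have hBX' : B \ X = B := by
    ext x
    simp only [mem_sdiff]
    exact ⟨fun h => h.1, fun h => ⟨h, hB' x h⟩⟩
  -- value of pm on B ∪ D
  have hpm : ∀ D ∈ X.powerset, pm p (B ∪ D) = loc p X D * loc p Xᶜ B := by
    intro D hD
    have hD' := mem_powerset.1 hD
    rw [pm_split p X]
    congr 1
    · apply loc_congr
      rw [union_inter_distrib_right, hBX, empty_union]
    · apply loc_congr
      rw [union_inter_distrib_right]
      have : D ∩ Xᶜ = ∅ := by
        ext x
        simp only [mem_inter, mem_compl, notMem_empty, iff_false, not_and, not_not]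
        exact fun h => hD' h
      rw [this, union_empty]
  have h1 : ∀ D ∈ X.powerset, pm p (B ∪ D) * io (((B ∪ D) \ X) ∪ P ∈ S)
      = loc p X D * (loc p Xᶜ B * io (B ∪ P ∈ S)) := by
    intro D hD
    have hD' := mem_powerset.1 hD
    have e1 : (B ∪ D) \ X = B := by
      rw [union_sdiff_distrib, hBX', sdiff_eq_empty_iff_subset.2 hD', union_empty]
    rw [hpm D hD]
    simp only [e1]
    ring
  rw [sum_congr rfl h1, ← sum_mul, loc_sum, one_mul]
  have h2 : ∀ D ∈ X.powerset, pm p (B ∪ D) * (io (B ∪ D ∈ S) * io ((B ∪ D) ∩ X = P))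
      = if D = P then loc p X P * (loc p Xᶜ B * io (B ∪ P ∈ S)) else 0 := by
    intro D hD
    have hD' := mem_powerset.1 hD
    have e1 : (B ∪ D) ∩ X = D := by
      rw [union_inter_distrib_right, hBX, empty_union, inter_eq_left.2 hD']
    rw [hpm D hD]
    simp only [e1]
    by_cases h : D = P
    · subst h
      simp [io]
    · simp [io, h]
  rw [sum_congr rfl h2, sum_ite_eq' X.powerset P, if_pos (mem_powerset.2 hP)]

lemma pm_sum (p : E → ℝ) : ∑ A : Finset E, pm p A = 1 := by
  have := loc_sum p (univ : Finset E)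
  simpa [loc, pm] using this

lemma trace_sum (p : E → ℝ) (X P : Finset E) (hP : P ⊆ X) :
    ∑ A : Finset E, pm p A * io (A ∩ X = P) = loc p X P := by
  have h := plant_id p X P hP (univ : Finset (Finset E))
  simp only [io, mem_univ, if_true, mul_one, one_mul] at h
  rw [pm_sum, mul_one] at h
  simp only [io]
  exact h.symm

lemma pm_nonneg {p : E → ℝ} (hp : ∀ c, 0 ≤ p c ∧ p c ≤ 1) (A : Finset E) : 0 ≤ pm p A :=
  prod_nonneg fun c _ => by
    split_ifs
    · exact (hp c).1
    · linarith [(hp c).2]

/-- **Planting lemma.** -/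
lemma planting {M : ℕ} (hM : 0 < M) {p : E → ℝ} (hp : ∀ c, 0 ≤ p c ∧ p c ≤ 1)
    (C P : Fin M → Finset E) (hP : ∀ j, P j ⊆ C j)
    (hdis : ∀ j k, j ≠ k → Disjoint (C j) (C k)) {a : ℝ} (ha : 0 < a)
    (hloc : ∀ j, a ≤ loc p (C j) (P j)) (S : Finset (Finset E)) :
    ∑ A ∈ S, pm p A - 1 / Real.sqrt (M * a)
      ≤ (∑ j, ∑ A : Finset E, pm p A * io ((A \ C j) ∪ P j ∈ S)) / M := by
  have hMr : (0 : ℝ) < M := by exact_mod_cast hM
  have hq : ∀ j, 0 < loc p (C j) (P j) := fun j => lt_of_lt_of_le ha (hloc j)
  set q : Fin M → ℝ := fun j => loc p (C j) (P j) with hqd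
  set X : Finset E → ℝ := fun A => (∑ j, io (A ∩ C j = P j) / q j) / M with hX
  -- the right hand side
  have hR : (∑ j, ∑ A : Finset E, pm p A * io ((A \ C j) ∪ P j ∈ S)) / M
      = ∑ A : Finset E, pm p A * (io (A ∈ S) * X A) := by
    have h1 : ∀ j, ∑ A : Finset E, pm p A * io ((A \ C j) ∪ P j ∈ S)
        = ∑ A : Finset E, pm p A * (io (A ∈ S) * (io (A ∩ C j = P j) / q j)) := by
      intro j
      have h := plant_id p (C j) (P j) (hP j) S
      have h2 : ∑ A : Finset E, pm p A * (io (A ∈ S) * (io (A ∩ C j = P j) / q j))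
          = (∑ A : Finset E, pm p A * (io (A ∈ S) * io (A ∩ C j = P j))) / q j := by
        rw [sum_div]
        refine sum_congr rfl fun A _ => ?_
        ring
      rw [h2, ← h, eq_div_iff (hq j).ne', mul_comm]
    rw [sum_congr rfl fun j _ => h1 j, sum_comm, sum_div]
    refine sum_congr rfl fun A _ => ?_
    rw [hX]
    simp only
    rw [← mul_sum, ← mul_sum]
    ring
  rw [hR]
  -- moments of X
  have hX1 : ∑ A : Finset E, pm p A * X A = 1 := by
    have h1 : ∀ A : Finset E, pm p A * X A = (∑ j, pm p A * io (A ∩ C j = P j) / q j) / M := by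
      intro A
      rw [hX]
      simp only
      rw [← mul_div_assoc, mul_sum]
      congr 1
      exact sum_congr rfl fun j _ => by ring
    rw [sum_congr rfl fun A _ => h1 A, ← sum_div, sum_comm]
    have h2 : ∀ j, ∑ A : Finset E, pm p A * io (A ∩ C j = P j) / q j = 1 := by
      intro j
      rw [← sum_div, trace_sum p (C j) (P j) (hP j)]
      exact div_self (hq j).ne'
    rw [sum_congr rfl fun j _ => h2 j]
    simp only [sum_const, card_univ, Fintype.card_fin, nsmul_eq_mul, mul_one]
    exact div_self hMr.ne'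
  have hX2 : ∑ A : Finset E, pm p A * (X A) ^ 2 ≤ 1 / (M * a) + 1 := by
    have h1 : ∀ A : Finset E, pm p A * (X A) ^ 2
        = (∑ j, ∑ k, pm p A * (io (A ∩ C j = P j) * io (A ∩ C k = P k)) / (q j * q k)) / M ^ 2 := by
      intro A
      rw [hX]
      simp only
      rw [div_pow, sq (∑ j, io (A ∩ C j = P j) / q j), sum_mul_sum, ← mul_div_assoc, mul_sum]
      congr 1
      refine sum_congr rfl fun j _ => ?_
      rw [mul_sum]
      refine sum_congr rfl fun k _ => ?_
      rw [div_mul_div_comm]
      ring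
    rw [sum_congr rfl fun A _ => h1 A, ← sum_div, sum_comm]
    have h2 : ∀ j k, ∑ A : Finset E, pm p A * (io (A ∩ C j = P j) * io (A ∩ C k = P k)) / (q j * q k)
        ≤ (if j = k then 1 / a else 0) + 1 := by
      intro j k
      by_cases hjk : j = k
      · subst hjk
        rw [if_pos rfl]
        have e : ∑ A : Finset E, pm p A * (io (A ∩ C j = P j) * io (A ∩ C j = P j)) / (q j * q j)
            = 1 / q j := by
          simp only [io_sq]
          rw [← sum_div, trace_sum p (C j) (P j) (hP j)]
          rw [div_mul_eq_div_div, div_self (hq j).ne']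
        rw [e]
        have : 1 / q j ≤ 1 / a := one_div_le_one_div_of_le ha (hloc j)
        linarith
      · rw [if_neg hjk, zero_add]
        have hd := hdis j k hjk
        have hu := trace_sum p (C j ∪ C k) (P j ∪ P k) (union_subset_union (hP j) (hP k))
        have hq2 : loc p (C j ∪ C k) (P j ∪ P k) = q j * q k := by
          rw [loc_union p hd]
          congr 1
          · apply loc_congr
            rw [union_inter_distrib_right]
            have : P k ∩ C j = ∅ := by
              rw [← disjoint_iff_inter_eq_empty]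
              exact (Finset.disjoint_of_subset_right (hP k) hd).symm
            rw [this, union_empty]
          · apply loc_congr
            rw [union_inter_distrib_right]
            have : P j ∩ C k = ∅ := by
              rw [← disjoint_iff_inter_eq_empty]
              exact Finset.disjoint_of_subset_left (hP j) hd
            rw [this, empty_union]
        rw [← sum_div, div_le_one (mul_pos (hq j) (hq k)), ← hq2, ← hu]
        refine sum_le_sum fun A _ => ?_
        refine mul_le_mul_of_nonneg_left ?_ (pm_nonneg hp A)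
        by_cases h : A ∩ C j = P j
        · by_cases h' : A ∩ C k = P k
          · have h3 : A ∩ (C j ∪ C k) = P j ∪ P k := by
              rw [inter_union_distrib_left, h, h']
            simp [io, h, h', h3]
          · simp only [io, h', if_false, mul_zero]
            split_ifs <;> norm_num
        · simp only [io, h, if_false, zero_mul]
          split_ifs <;> norm_num
    have h3 : ∀ j, ∑ A : Finset E, ∑ k, pm p A * (io (A ∩ C j = P j) * io (A ∩ C k = P k)) / (q j * q k)
        ≤ 1 / a + M := by
      intro j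
      rw [sum_comm]
      calc _ ≤ ∑ k : Fin M, ((if j = k then 1 / a else 0) + 1) := sum_le_sum fun k _ => h2 j k
        _ = 1 / a + M := by
            rw [sum_add_distrib]
            simp
    have h4 : ∑ j : Fin M, ∑ A : Finset E, ∑ k, pm p A * (io (A ∩ C j = P j) * io (A ∩ C k = P k))
        / (q j * q k) ≤ M * (1 / a + M) := by
      calc _ ≤ ∑ _j : Fin M, (1 / a + (M : ℝ)) := sum_le_sum fun j _ => h3 j
        _ = _ := by simp; ring
    calc _ ≤ (M * (1 / a + (M : ℝ))) / M ^ 2 := div_le_div_of_nonneg_right h4 (by positivity)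
      _ = 1 / (M * a) + 1 := by field_simp
  have hvar : ∑ A : Finset E, pm p A * (1 - X A) ^ 2 ≤ 1 / (M * a) := by
    have e : ∀ A : Finset E, pm p A * (1 - X A) ^ 2
        = pm p A - 2 * (pm p A * X A) + pm p A * (X A) ^ 2 := fun A => by ring
    rw [sum_congr rfl fun A _ => e A, sum_add_distrib, sum_sub_distrib, ← mul_sum, pm_sum, hX1]
    linarith
  -- Cauchy-Schwarz
  have hcs : (∑ A : Finset E, pm p A * (io (A ∈ S) * (1 - X A))) ^ 2 ≤ 1 / (M * a) := by
    have h1 := Finset.sum_mul_sq_le_sq_mul_sq (univ : Finset (Finset E))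
      (fun A => Real.sqrt (pm p A) * io (A ∈ S)) (fun A => Real.sqrt (pm p A) * (1 - X A))
    have e1 : ∀ A : Finset E, (Real.sqrt (pm p A) * io (A ∈ S)) * (Real.sqrt (pm p A) * (1 - X A))
        = pm p A * (io (A ∈ S) * (1 - X A)) := by
      intro A
      have := Real.mul_self_sqrt (pm_nonneg hp A)
      calc _ = (Real.sqrt (pm p A) * Real.sqrt (pm p A)) * (io (A ∈ S) * (1 - X A)) := by ring
        _ = _ := by rw [this]
    have e2 : ∀ A : Finset E, (Real.sqrt (pm p A) * io (A ∈ S)) ^ 2 = pm p A * io (A ∈ S) := by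
      intro A
      rw [mul_pow, Real.sq_sqrt (pm_nonneg hp A), sq, io_sq]
    have e3 : ∀ A : Finset E, (Real.sqrt (pm p A) * (1 - X A)) ^ 2 = pm p A * (1 - X A) ^ 2 := by
      intro A
      rw [mul_pow, Real.sq_sqrt (pm_nonneg hp A)]
    simp only [e1, e2, e3] at h1
    have h2 : ∑ A : Finset E, pm p A * io (A ∈ S) ≤ 1 := by
      rw [← pm_sum p]
      refine sum_le_sum fun A _ => ?_
      exact mul_le_of_le_one_right (pm_nonneg hp A) (io_le _)
    have h3 : 0 ≤ ∑ A : Finset E, pm p A * (1 - X A) ^ 2 :=
      sum_nonneg fun A _ => mul_nonneg (pm_nonneg hp A) (sq_nonneg _)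
    calc _ ≤ _ := h1
      _ ≤ 1 * ∑ A : Finset E, pm p A * (1 - X A) ^ 2 := mul_le_mul_of_nonneg_right h2 h3
      _ ≤ 1 / (M * a) := by rw [one_mul]; exact hvar
  have hle : ∑ A : Finset E, pm p A * (io (A ∈ S) * (1 - X A)) ≤ 1 / Real.sqrt (M * a) := by
    have h1 : |∑ A : Finset E, pm p A * (io (A ∈ S) * (1 - X A))| ≤ Real.sqrt (1 / (M * a)) :=
      Real.abs_le_sqrt hcs
    rw [Real.sqrt_div zero_le_one, Real.sqrt_one] at h1
    exact (le_abs_self _).trans h1
  have hS : ∑ A ∈ S, pm p A = ∑ A : Finset E, pm p A * io (A ∈ S) := by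
    have : ∀ A : Finset E, pm p A * io (A ∈ S) = if A ∈ S then pm p A else 0 := by
      intro A
      by_cases h : A ∈ S <;> simp [io, h]
    rw [sum_congr rfl fun A _ => this A]
    simp
  have hsplit : ∑ A : Finset E, pm p A * (io (A ∈ S) * (1 - X A))
      = ∑ A : Finset E, pm p A * io (A ∈ S) - ∑ A : Finset E, pm p A * (io (A ∈ S) * X A) := by
    rw [← sum_sub_distrib]
    exact sum_congr rfl fun A _ => by ring
  rw [hS]
  linarith

end Pool.Agent.TH635.PH
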