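import Mathlib
import Pool.Agent.H720R3.Blocks
import Pool.Agent.TH635.PH.Plant

set_option autoImplicit false

/-!
# Planted patterns in families of subsets of `[N]^d`
-/

namespace Pool.Agent.TH635.PH

open Finset Pool.Agent.H720R3

/-- the family contains two sets, the second obtained from the first by adding a `d`-th power -/
def Gd {α : Type} [DecidableEq α] (d : ℕ) (S : Finset (Finset (Fin d → α))) : Prop :=
  ∃ A ∈ S, ∃ B ∈ S, Up d A B

section

variable {n M N d : ℕ}

/-- the family of patterns seen in block `j` -/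
def tf (h : M * n ≤ N) (S : Finset (Finset (Fin d → Fin N))) (A : Finset (Fin d → Fin N))
    (j : Fin M) : Finset (Finset (Fin d → Fin n)) :=
  univ.filter fun P => (A \ C d h j) ∪ tr d h j P ∈ S

lemma mem_tf {h : M * n ≤ N} {S : Finset (Finset (Fin d → Fin N))} {A : Finset (Fin d → Fin N)}
    {j : Fin M} {P : Finset (Fin d → Fin n)} :
    P ∈ tf h S A j ↔ (A \ C d h j) ∪ tr d h j P ∈ S := by
  rw [tf, mem_filter]
  exact ⟨fun h => h.2, fun h => ⟨mem_univ _, h⟩⟩

lemma gd_of_tf {h : M * n ≤ N} {S : Finset (Finset (Fin d → Fin N))}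
    {A : Finset (Fin d → Fin N)} {j : Fin M} (hg : Gd d (tf h S A j)) : Gd d S := by
  obtain ⟨X, hX, Y, hY, hXY⟩ := hg
  rw [mem_tf] at hX hY
  exact ⟨_, hX, _, hY, adj_tr h j _ Finset.sdiff_disjoint hXY⟩

/-- planting in blocks: every pattern is seen with about the right frequency -/
lemma plant_blocks (hd : 1 ≤ d) (h : M * n ≤ N) (hM : 0 < M) {p : (Fin d → Fin N) → ℝ} {η : ℝ}
    (hη : 0 < η) (hp : ∀ c, η ≤ p c ∧ p c ≤ 1 - η) (S : Finset (Finset (Fin d → Fin N)))
    (P : Finset (Fin d → Fin n)) :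
    ∑ A ∈ S, pm p A - 1 / Real.sqrt (M * η ^ (n ^ d))
      ≤ (∑ j : Fin M, ∑ A : Finset (Fin d → Fin N), pm p A * io (P ∈ tf h S A j)) / M := by
  have hp' : ∀ c, 0 ≤ p c ∧ p c ≤ 1 := fun c => ⟨hη.le.trans (hp c).1, by linarith [(hp c).2]⟩
  have hloc : ∀ j, η ^ (n ^ d) ≤ loc p (C d h j) (tr d h j P) := by
    intro j
    rw [← card_C (d := d) h j, ← Finset.prod_const, loc]
    refine Finset.prod_le_prod (fun _ _ => hη.le) fun c _ => ?_
    split_ifs
    · exact (hp c).1
    · linarith [(hp c).2]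
  have := planting hM hp' (fun j => C d h j) (fun j => tr d h j P) (fun j => tr_sub h j P)
    (C_disj hd h) (pow_pos hη _) hloc S
  refine this.trans (le_of_eq ?_)
  congr 1
  refine sum_congr rfl fun j _ => sum_congr rfl fun A _ => ?_
  congr 1
  simp only [io, mem_tf]

/-- the weight of the seen family -/
lemma plant_weight (hd : 1 ≤ d) (h : M * n ≤ N) (hM : 0 < M) {p : (Fin d → Fin N) → ℝ} {η : ℝ}
    (hη : 0 < η) (hp : ∀ c, η ≤ p c ∧ p c ≤ 1 - η) (S : Finset (Finset (Fin d → Fin N)))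
    (w : Finset (Fin d → Fin n) → ℝ) (hw : ∀ P, 0 ≤ w P) (hw1 : ∑ P, w P = 1) {ε : ℝ}
    (hwε : ∀ T : Finset (Finset (Fin d → Fin n)), ¬ Gd d T → ∑ P ∈ T, w P ≤ ε)
    (hS : ¬ Gd d S) :
    ∑ A ∈ S, pm p A ≤ ε + 1 / Real.sqrt (M * η ^ (n ^ d)) := by
  have hp' : ∀ c, 0 ≤ p c ∧ p c ≤ 1 := fun c => ⟨hη.le.trans (hp c).1, by linarith [(hp c).2]⟩
  have hMr : (0 : ℝ) < M := by exact_mod_cast hM
  have h1 : ∑ P, w P * (∑ A ∈ S, pm p A - 1 / Real.sqrt (M * η ^ (n ^ d)))
      ≤ ∑ P, w P * ((∑ j : Fin M, ∑ A : Finset (Fin d → Fin N),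
        pm p A * io (P ∈ tf h S A j)) / M) :=
    sum_le_sum fun P _ => mul_le_mul_of_nonneg_left (plant_blocks hd h hM hη hp S P) (hw P)
  rw [← sum_mul, hw1, one_mul] at h1
  have h2 : ∑ P, w P * ((∑ j : Fin M, ∑ A : Finset (Fin d → Fin N),
        pm p A * io (P ∈ tf h S A j)) / M)
      = (∑ j : Fin M, ∑ A : Finset (Fin d → Fin N), pm p A * ∑ P ∈ tf h S A j, w P) / M := by
    have e1 : ∀ P : Finset (Fin d → Fin n), w P * ((∑ j : Fin M, ∑ A : Finset (Fin d → Fin N),
        pm p A * io (P ∈ tf h S A j)) / M)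
        = (∑ j : Fin M, ∑ A : Finset (Fin d → Fin N), pm p A * (w P * io (P ∈ tf h S A j))) / M := by
      intro P
      rw [← mul_div_assoc, mul_sum]
      congr 1
      refine sum_congr rfl fun j _ => ?_
      rw [mul_sum]
      exact sum_congr rfl fun A _ => by ring
    rw [sum_congr rfl fun P _ => e1 P, ← sum_div, sum_comm]
    congr 1
    refine sum_congr rfl fun j _ => ?_
    rw [sum_comm]
    refine sum_congr rfl fun A _ => ?_
    rw [← mul_sum]
    congr 1
    have e2 : ∀ P : Finset (Fin d → Fin n), w P * io (P ∈ tf h S A j)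
        = if P ∈ tf h S A j then w P else 0 := by
      intro P
      by_cases hP : P ∈ tf h S A j <;> simp [io, hP]
    rw [sum_congr rfl fun P _ => e2 P]
    simp
  rw [h2] at h1
  have h3 : (∑ j : Fin M, ∑ A : Finset (Fin d → Fin N), pm p A * ∑ P ∈ tf h S A j, w P) / M ≤ ε := by
    rw [div_le_iff₀ hMr]
    have e3 : ∀ j : Fin M, ∑ A : Finset (Fin d → Fin N), pm p A * ∑ P ∈ tf h S A j, w P ≤ ε := by
      intro j
      calc _ ≤ ∑ A : Finset (Fin d → Fin N), pm p A * ε :=
            sum_le_sum fun A _ => mul_le_mul_of_nonneg_left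
              (hwε _ fun hg => hS (gd_of_tf hg)) (pm_nonneg hp' A)
        _ = ε := by rw [← sum_mul, pm_sum, one_mul]
    calc _ ≤ ∑ _j : Fin M, ε := sum_le_sum fun j _ => e3 j
      _ = ε * M := by simp [mul_comm]
  linarith

/-- the random seen family -/
noncomputable def rf (h : M * n ≤ N) (p : (Fin d → Fin N) → ℝ)
    (S : Finset (Finset (Fin d → Fin N))) (T : Finset (Finset (Fin d → Fin n))) : ℝ :=
  (∑ j : Fin M, ∑ A : Finset (Fin d → Fin N), pm p A * io (tf h S A j = T)) / M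

lemma rf_nonneg (h : M * n ≤ N) {p : (Fin d → Fin N) → ℝ} (hp : ∀ c, 0 ≤ p c ∧ p c ≤ 1)
    (S : Finset (Finset (Fin d → Fin N))) (T : Finset (Finset (Fin d → Fin n))) :
    0 ≤ rf h p S T :=
  div_nonneg (sum_nonneg fun _ _ => sum_nonneg fun A _ => mul_nonneg (pm_nonneg hp A)
    (io_nonneg _)) (Nat.cast_nonneg M)

lemma rf_sum (h : M * n ≤ N) (hM : 0 < M) {p : (Fin d → Fin N) → ℝ}
    (S : Finset (Finset (Fin d → Fin N))) :
    ∑ T : Finset (Finset (Fin d → Fin n)), rf h p S T = 1 := by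
  have hMr : (0 : ℝ) < M := by exact_mod_cast hM
  unfold rf
  rw [← sum_div, sum_comm]
  have e1 : ∀ j : Fin M, ∑ T : Finset (Finset (Fin d → Fin n)),
      ∑ A : Finset (Fin d → Fin N), pm p A * io (tf h S A j = T) = 1 := by
    intro j
    rw [sum_comm, ← pm_sum p]
    refine sum_congr rfl fun A _ => ?_
    rw [← mul_sum]
    simp [io]
  rw [sum_congr rfl fun j _ => e1 j]
  simp only [sum_const, card_univ, Fintype.card_fin, nsmul_eq_mul, mul_one]
  exact div_self hMr.ne'

lemma rf_good (h : M * n ≤ N) {p : (Fin d → Fin N) → ℝ} {S : Finset (Finset (Fin d → Fin N))}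
    (hS : ¬ Gd d S) {T : Finset (Finset (Fin d → Fin n))} (hT : Gd d T) : rf h p S T = 0 := by
  unfold rf
  have : ∀ j : Fin M, ∀ A : Finset (Fin d → Fin N), pm p A * io (tf h S A j = T) = 0 := by
    intro j A
    have hne : tf h S A j ≠ T := by
      intro he
      rw [← he] at hT
      exact hS (gd_of_tf hT)
    simp [io, hne]
  simp [this]

lemma rf_cover (h : M * n ≤ N) {p : (Fin d → Fin N) → ℝ} (S : Finset (Finset (Fin d → Fin N)))
    (P : Finset (Fin d → Fin n)) :
    ∑ T : Finset (Finset (Fin d → Fin n)), (if P ∈ T then rf h p S T else 0)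
      = (∑ j : Fin M, ∑ A : Finset (Fin d → Fin N), pm p A * io (P ∈ tf h S A j)) / M := by
  have e0 : ∀ T : Finset (Finset (Fin d → Fin n)), (if P ∈ T then rf h p S T else 0)
      = (∑ j : Fin M, ∑ A : Finset (Fin d → Fin N),
          pm p A * (if P ∈ T then io (tf h S A j = T) else 0)) / M := by
    intro T
    by_cases hP : P ∈ T
    · simp only [hP, if_true]; rfl
    · simp only [hP, if_false, mul_zero, sum_const_zero, zero_div]
  rw [sum_congr rfl fun T _ => e0 T, ← sum_div, sum_comm]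
  congr 1
  refine sum_congr rfl fun j _ => ?_
  rw [sum_comm]
  refine sum_congr rfl fun A _ => ?_
  rw [← mul_sum]
  congr 1
  have e1 : ∀ T : Finset (Finset (Fin d → Fin n)),
      (if P ∈ T then io (tf h S A j = T) else 0)
        = if tf h S A j = T then io (P ∈ tf h S A j) else 0 := by
    intro T
    by_cases hT : tf h S A j = T
    · subst hT
      simp [io]
    · simp [io, hT]
  rw [sum_congr rfl fun T _ => e1 T]
  simp

end

end Pool.Agent.TH635.PH
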