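import Mathlib
import Pool.Agent.TH635.PH.Cube

set_option autoImplicit false

/-!
# Consequences of planting
-/

namespace Pool.Agent.TH635.PH

open Finset Pool.Agent.H720R3 Filter Topology

/-- the exponent -/
noncomputable def kap (D : ℕ) : ℝ := 1 / (2 * ((D : ℝ) + 1))

lemma kap_pos (D : ℕ) : 0 < kap D := by unfold kap; positivity

lemma numeric (m D : ℕ) {t : ℝ} (ht : 0 < t) : ∃ N₀ : ℕ, ∀ N : ℕ, N₀ ≤ N →
    1 ≤ N ∧ 0 < N / (m + 1) ∧ N / (m + 1) * m ≤ N ∧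
      1 / Real.sqrt (((N / (m + 1) : ℕ) : ℝ) * ((N : ℝ) ^ (-kap D)) ^ D) < t := by
  obtain ⟨K, hK⟩ := exists_nat_gt ((2 * ((m : ℝ) + 1) / t ^ 2) ^ 2)
  refine ⟨max K (2 * (m + 1)), fun N hN => ?_⟩
  have hN1 : K ≤ N := le_trans (le_max_left _ _) hN
  have hN2 : 2 * (m + 1) ≤ N := le_trans (le_max_right _ _) hN
  have hNpos : 1 ≤ N := by omega
  have hNr : (1 : ℝ) ≤ N := by exact_mod_cast hNpos
  have hN0 : (0 : ℝ) < N := by linarith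
  have hmr : (0 : ℝ) < (m : ℝ) + 1 := by positivity
  have hM : 0 < N / (m + 1) := Nat.div_pos (by omega) (by omega)
  refine ⟨hNpos, hM, ?_, ?_⟩
  · calc N / (m + 1) * m ≤ N / (m + 1) * (m + 1) := Nat.mul_le_mul_left _ (by omega)
      _ ≤ N := Nat.div_mul_le_self N (m + 1)
  -- lower bound for the number of blocks
  have hMr : (N : ℝ) / (2 * ((m : ℝ) + 1)) ≤ ((N / (m + 1) : ℕ) : ℝ) := by
    have h1 : N < (m + 1) * (N / (m + 1) + 1) := Nat.lt_mul_div_succ N (by omega)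
    have h2 : (N : ℝ) < ((m : ℝ) + 1) * (((N / (m + 1) : ℕ) : ℝ) + 1) := by exact_mod_cast h1
    have h3 : (2 : ℝ) * ((m : ℝ) + 1) ≤ N := by exact_mod_cast hN2
    rw [div_le_iff₀ (by positivity)]
    nlinarith
  -- lower bound for the power
  have hpow : 1 / Real.sqrt N ≤ ((N : ℝ) ^ (-kap D)) ^ D := by
    rw [← Real.rpow_natCast, ← Real.rpow_mul hN0.le, Real.sqrt_eq_rpow, one_div,
      ← Real.rpow_neg hN0.le]
    refine Real.rpow_le_rpow_of_exponent_le hNr ?_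
    have : kap D * D ≤ 1 / 2 := by
      unfold kap
      rw [div_mul_eq_mul_div, one_mul, div_le_iff₀ (by positivity)]
      have : (0 : ℝ) ≤ D := Nat.cast_nonneg D
      linarith
    linarith
  have hsq : 0 < Real.sqrt N := Real.sqrt_pos.2 hN0
  have hx : Real.sqrt N / (2 * ((m : ℝ) + 1))
      ≤ ((N / (m + 1) : ℕ) : ℝ) * ((N : ℝ) ^ (-kap D)) ^ D := by
    calc Real.sqrt N / (2 * ((m : ℝ) + 1)) = (N : ℝ) / (2 * ((m : ℝ) + 1)) * (1 / Real.sqrt N) := by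
          have h := Real.mul_self_sqrt hN0.le
          field_simp
          nlinarith
      _ ≤ _ := mul_le_mul hMr hpow (by positivity) (Nat.cast_nonneg _)
  have hbig : 1 / t ^ 2 < Real.sqrt N / (2 * ((m : ℝ) + 1)) := by
    rw [lt_div_iff₀ (by positivity)]
    have h1 : (2 * ((m : ℝ) + 1) / t ^ 2) ^ 2 < (N : ℝ) := lt_of_lt_of_le hK (by exact_mod_cast hN1)
    have h2 : 2 * ((m : ℝ) + 1) / t ^ 2 < Real.sqrt N := Real.lt_sqrt_of_sq_lt h1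
    calc 1 / t ^ 2 * (2 * ((m : ℝ) + 1)) = 2 * ((m : ℝ) + 1) / t ^ 2 := by ring
      _ < _ := h2
  have hxx := lt_of_lt_of_le hbig hx
  have h5 : 1 / t < Real.sqrt (((N / (m + 1) : ℕ) : ℝ) * ((N : ℝ) ^ (-kap D)) ^ D) := by
    refine Real.lt_sqrt_of_sq_lt ?_
    rw [one_div, inv_pow, ← one_div]
    exact hxx
  rw [one_div] at h5 ⊢
  exact inv_lt_of_inv_lt₀ ht h5

lemma half_ok (D : ℕ) : ∃ N₀ : ℕ, ∀ N : ℕ, N₀ ≤ N → (N : ℝ) ^ (-kap D) ≤ 1 / 2 := by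
  have h : Tendsto (fun N : ℕ => (N : ℝ) ^ (-kap D)) atTop (𝓝 0) :=
    (tendsto_rpow_neg_atTop (kap_pos D)).comp tendsto_natCast_atTop_atTop
  have h2 : ∀ᶠ N : ℕ in atTop, (N : ℝ) ^ (-kap D) < 1 / 2 :=
    h.eventually (gt_mem_nhds (by norm_num))
  obtain ⟨N₀, hN₀⟩ := eventually_atTop.1 h2
  exact ⟨N₀, fun N hN => (hN₀ N hN).le⟩

/-- some weight on one finite cube gives all product measures -/
theorem some_to_all {d : ℕ} (hd : 1 ≤ d) {ε δ : ℝ} (hεδ : ε < δ) {m : ℕ}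
    (w : Finset (Fin d → Fin m) → ℝ) (hw : ∀ P, 0 ≤ w P) (hw1 : ∑ P, w P = 1)
    (hwε : ∀ T : Finset (Finset (Fin d → Fin m)), ε < ∑ P ∈ T, w P → Gd d T) :
    ∃ κ : ℝ, 0 < κ ∧ ∃ N₀ : ℕ, ∀ N : ℕ, N₀ ≤ N → ∀ p : (Fin d → Fin N) → ℝ,
      (∀ c, (N : ℝ) ^ (-κ) ≤ p c ∧ p c ≤ 1 - (N : ℝ) ^ (-κ)) →
        ∀ S : Finset (Finset (Fin d → Fin N)), δ < ∑ A ∈ S, pm p A → Gd d S := by
  refine ⟨kap (m ^ d), kap_pos _, ?_⟩
  obtain ⟨N₀, hN₀⟩ := numeric m (m ^ d) (sub_pos.2 hεδ)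
  refine ⟨N₀, fun N hN p hp S hS => ?_⟩
  obtain ⟨h1, hM, hle, herr⟩ := hN₀ N hN
  by_contra hbad
  have hη : 0 < (N : ℝ) ^ (-kap (m ^ d)) := Real.rpow_pos_of_pos (by exact_mod_cast h1) _
  have := plant_weight hd hle hM hη hp S w hw hw1 (ε := ε)
    (fun T hT => by
      by_contra hcon
      exact hT (hwε T (not_le.1 hcon))) hbad
  linarith

lemma pm_half {E : Type} [Fintype E] [DecidableEq E] (A : Finset E) :
    pm (fun _ : E => (1 / 2 : ℝ)) A = (1 / 2) ^ Fintype.card E := by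
  unfold pm
  have : ∀ c ∈ (univ : Finset E), (if c ∈ A then (1 / 2 : ℝ) else 1 - 1 / 2) = 1 / 2 := by
    intro c _
    split_ifs <;> norm_num
  rw [prod_congr rfl this, prod_const, card_univ]

lemma pm_half_sum {d N : ℕ} (S : Finset (Finset (Fin d → Fin N))) :
    ∑ A ∈ S, pm (fun _ => (1 / 2 : ℝ)) A = (S.card : ℝ) / 2 ^ (N ^ d) := by
  rw [sum_congr rfl fun A _ => pm_half A]
  simp [div_eq_mul_inv]

/-- all product measures gives the uniform measure -/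
theorem all_to_uniform {d : ℕ} {δ κ : ℝ} (hκ : 0 < κ)
    (h : ∃ N₀ : ℕ, ∀ N : ℕ, N₀ ≤ N → ∀ p : (Fin d → Fin N) → ℝ,
      (∀ c, (N : ℝ) ^ (-κ) ≤ p c ∧ p c ≤ 1 - (N : ℝ) ^ (-κ)) →
        ∀ S : Finset (Finset (Fin d → Fin N)), δ < ∑ A ∈ S, pm p A → Gd d S) :
    ∃ N₀ : ℕ, ∀ N : ℕ, N₀ ≤ N → ∀ S : Finset (Finset (Fin d → Fin N)),
      δ * 2 ^ (N ^ d) < S.card → Gd d S := by
  obtain ⟨N₀, hN₀⟩ := h
  have h1 : Tendsto (fun N : ℕ => (N : ℝ) ^ (-κ)) atTop (𝓝 0) :=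
    (tendsto_rpow_neg_atTop hκ).comp tendsto_natCast_atTop_atTop
  have h2 : ∀ᶠ N : ℕ in atTop, (N : ℝ) ^ (-κ) < 1 / 2 :=
    h1.eventually (gt_mem_nhds (by norm_num))
  obtain ⟨N₁, hN₁⟩ := eventually_atTop.1 h2
  refine ⟨max N₀ N₁, fun N hN S hS => ?_⟩
  have h3 := hN₁ N (le_trans (le_max_right _ _) hN)
  refine hN₀ N (le_trans (le_max_left _ _) hN) (fun _ => 1 / 2)
    (fun c => ⟨h3.le, by linarith⟩) S ?_
  rw [pm_half_sum, lt_div_iff₀ (by positivity)]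
  exact hS

/-- if there are large bad families for arbitrarily large `N`, every finite cube carries a random
bad family which contains every set with large probability -/
theorem random_bad {d : ℕ} (hd : 1 ≤ d) {ε δ : ℝ} (hεδ : ε < δ)
    (hbad : ∀ N₀ : ℕ, ∃ N : ℕ, N₀ ≤ N ∧ ∃ S : Finset (Finset (Fin d → Fin N)),
      δ * 2 ^ (N ^ d) < S.card ∧ ¬ Gd d S) (m : ℕ) :
    ∃ ℓ : Finset (Finset (Fin d → Fin m)) → ℝ, (∀ T, 0 ≤ ℓ T) ∧ ∑ T, ℓ T = 1 ∧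
      (∀ T, Gd d T → ℓ T = 0) ∧ ∀ P, ε < ∑ T, if P ∈ T then ℓ T else 0 := by
  obtain ⟨N₀, hN₀⟩ := numeric m (m ^ d) (sub_pos.2 hεδ)
  obtain ⟨N₁, hN₁⟩ := half_ok (m ^ d)
  obtain ⟨N, hN, S, hS, hSb⟩ := hbad (max N₀ N₁)
  obtain ⟨h1, hM, hle, herr⟩ := hN₀ N (le_trans (le_max_left _ _) hN)
  have hhalf := hN₁ N (le_trans (le_max_right _ _) hN)
  set p : (Fin d → Fin N) → ℝ := fun _ => 1 / 2 with hp
  have hp01 : ∀ c, 0 ≤ p c ∧ p c ≤ 1 := fun c => by rw [hp]; norm_num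
  have hη : 0 < (N : ℝ) ^ (-kap (m ^ d)) := Real.rpow_pos_of_pos (by exact_mod_cast h1) _
  refine ⟨rf hle p S, fun T => rf_nonneg hle hp01 S T, rf_sum hle hM S,
    fun T hT => rf_good hle hSb hT, fun P => ?_⟩
  rw [rf_cover]
  have h2 := plant_blocks hd hle hM hη (p := p)
    (fun c => ⟨by rw [hp]; exact hhalf, by rw [hp]; simp only; linarith⟩) S P
  have h3 : δ < ∑ A ∈ S, pm p A := by
    rw [hp, pm_half_sum, lt_div_iff₀ (by positivity)]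
    exact hS
  linarith

end Pool.Agent.TH635.PH
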