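import Mathlib
import Pool.Agent.TH635.PH.Plant

set_option autoImplicit false

/-!
# Planting patterns in product spaces over a finite alphabet
-/

namespace Pool.Agent.TH635.PH

open Finset

variable {E Q : Type} [Fintype E] [DecidableEq E] [Fintype Q] [DecidableEq Q]

/-- overwrite `x` by `P` on `X` -/
def ov (X : Finset E) (x P : E → Q) : E → Q := fun c => if c ∈ X then P c else x c

/-- product weight of a word -/
noncomputable def fm (p : E → Q → ℝ) (x : E → Q) : ℝ := ∏ c, p c (x c)

/-- local product weight of a word -/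
noncomputable def fl (p : E → Q → ℝ) (X : Finset E) (x : E → Q) : ℝ := ∏ c ∈ X, p c (x c)

omit [DecidableEq Q] in
lemma fm_pi (p : E → Q → ℝ) (t : E → Finset Q) :
    ∑ x ∈ Fintype.piFinset t, fm p x = ∏ c, ∑ q ∈ t c, p c q :=
  (Finset.prod_univ_sum t (fun c q => p c q)).symm

omit [DecidableEq Q] in
lemma fm_total {p : E → Q → ℝ} (hp1 : ∀ c, ∑ q, p c q = 1) : ∑ x : E → Q, fm p x = 1 := by
  have h := fm_pi p (fun _ => (univ : Finset Q))
  rw [Fintype.piFinset_univ] at h
  rw [h]
  exact prod_eq_one fun c _ => hp1 c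

omit [Fintype Q] [DecidableEq Q] in
lemma fm_split (p : E → Q → ℝ) (X : Finset E) (x : E → Q) : fm p x = fl p X x * fl p Xᶜ x :=
  (Finset.prod_mul_prod_compl X _).symm

omit [Fintype E] [Fintype Q] [DecidableEq Q] [DecidableEq E] in
lemma fl_congr (p : E → Q → ℝ) {X : Finset E} {x y : E → Q} (h : ∀ c ∈ X, x c = y c) :
    fl p X x = fl p X y := prod_congr rfl fun c hc => by rw [h c hc]

lemma fiber_sum {p : E → Q → ℝ} (hp1 : ∀ c, ∑ q, p c q = 1) (X : Finset E) (P y : E → Q) :
    ∑ x ∈ univ.filter (fun x : E → Q => ov X x P = y), fm p x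
      = io (∀ c ∈ X, y c = P c) * fl p Xᶜ y := by
  by_cases hy : ∀ c ∈ X, y c = P c
  · have hset : univ.filter (fun x : E → Q => ov X x P = y)
        = Fintype.piFinset (fun c => if c ∈ X then (univ : Finset Q) else {y c}) := by
      ext x
      rw [mem_filter, Fintype.mem_piFinset]
      constructor
      · rintro ⟨-, h⟩ c
        by_cases hc : c ∈ X
        · rw [if_pos hc]; exact mem_univ _
        · rw [if_neg hc, mem_singleton]
          have := congrFun h c
          rw [ov, if_neg hc] at this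
          exact this
      · intro h
        refine ⟨mem_univ _, funext fun c => ?_⟩
        by_cases hc : c ∈ X
        · rw [ov, if_pos hc, hy c hc]
        · have := h c
          rw [if_neg hc, mem_singleton] at this
          rw [ov, if_neg hc, this]
    rw [hset, fm_pi]
    have h1 : ∀ c ∈ (univ : Finset E), ∑ q ∈ (if c ∈ X then (univ : Finset Q) else {y c}), p c q
        = if c ∈ Xᶜ then p c (y c) else 1 := by
      intro c _
      by_cases hc : c ∈ X
      · rw [if_pos hc, hp1, if_neg (by simp [hc])]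
      · rw [if_neg hc, sum_singleton, if_pos (by simp [hc])]
    rw [prod_congr rfl h1, Finset.prod_ite_mem, univ_inter]
    rw [io, if_pos hy, one_mul, fl]
  · have hset : univ.filter (fun x : E → Q => ov X x P = y) = ∅ := by
      ext x
      simp only [mem_filter, mem_univ, true_and, notMem_empty, iff_false]
      intro h
      refine hy fun c hc => ?_
      have := congrFun h c
      rw [ov, if_pos hc] at this
      exact this.symm
    rw [hset, sum_empty]
    simp [io, hy]

lemma plant_id' {p : E → Q → ℝ} (hp1 : ∀ c, ∑ q, p c q = 1) (X : Finset E) (P : E → Q)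
    (S : Finset (E → Q)) :
    fl p X P * ∑ x : E → Q, fm p x * io (ov X x P ∈ S)
      = ∑ x : E → Q, fm p x * (io (x ∈ S) * io (∀ c ∈ X, x c = P c)) := by
  have h1 : ∑ x : E → Q, fm p x * io (ov X x P ∈ S)
      = ∑ y : E → Q, io (y ∈ S) * (io (∀ c ∈ X, y c = P c) * fl p Xᶜ y) := by
    rw [← Finset.sum_fiberwise (univ : Finset (E → Q)) (fun x => ov X x P)]
    refine sum_congr rfl fun y _ => ?_
    rw [← fiber_sum hp1 X P y, mul_sum]
    refine sum_congr rfl fun x hx => ?_
    rw [(mem_filter.1 hx).2]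
    ring
  rw [h1, mul_sum]
  refine sum_congr rfl fun y _ => ?_
  by_cases hy : ∀ c ∈ X, y c = P c
  · rw [fm_split p X y, fl_congr p hy]
    simp [io, hy]
    try ring
  · simp [io, hy]

lemma trace_sum' {p : E → Q → ℝ} (hp1 : ∀ c, ∑ q, p c q = 1) (X : Finset E) (P : E → Q) :
    ∑ x : E → Q, fm p x * io (∀ c ∈ X, x c = P c) = fl p X P := by
  have h := plant_id' hp1 X P (univ : Finset (E → Q))
  simp only [io, mem_univ, if_true, mul_one, one_mul] at h
  rw [fm_total hp1, mul_one] at h
  simp only [io]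
  exact h.symm

omit [Fintype Q] [DecidableEq Q] [DecidableEq E] in
lemma fm_nonneg {p : E → Q → ℝ} (hp : ∀ c q, 0 ≤ p c q) (x : E → Q) : 0 ≤ fm p x :=
  prod_nonneg fun c _ => hp c _

/-- **Planting lemma**, alphabet version. -/
lemma planting' {M : ℕ} (hM : 0 < M) {p : E → Q → ℝ} (hp : ∀ c q, 0 ≤ p c q)
    (hp1 : ∀ c, ∑ q, p c q = 1) (C : Fin M → Finset E) (P : Fin M → E → Q)
    (hdis : ∀ j k, j ≠ k → Disjoint (C j) (C k)) {a : ℝ} (ha : 0 < a)
    (hloc : ∀ j, a ≤ fl p (C j) (P j)) (S : Finset (E → Q)) :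
    ∑ x ∈ S, fm p x - 1 / Real.sqrt (M * a)
      ≤ (∑ j, ∑ x : E → Q, fm p x * io (ov (C j) x (P j) ∈ S)) / M := by
  have hMr : (0 : ℝ) < M := by exact_mod_cast hM
  have hq : ∀ j, 0 < fl p (C j) (P j) := fun j => lt_of_lt_of_le ha (hloc j)
  set q : Fin M → ℝ := fun j => fl p (C j) (P j) with hqd
  set I : Fin M → (E → Q) → ℝ := fun j x => io (∀ c ∈ C j, x c = P j c) with hI
  have hI2 : ∀ j x, I j x * I j x = I j x := fun j x => io_sq _
  have htr : ∀ j, ∑ x : E → Q, fm p x * I j x = q j := fun j => trace_sum' hp1 (C j) (P j)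
  set X : (E → Q) → ℝ := fun x => (∑ j, I j x / q j) / M with hX
  -- the right hand side
  have hR : (∑ j, ∑ x : E → Q, fm p x * io (ov (C j) x (P j) ∈ S)) / M
      = ∑ x : E → Q, fm p x * (io (x ∈ S) * X x) := by
    have h1 : ∀ j, ∑ x : E → Q, fm p x * io (ov (C j) x (P j) ∈ S)
        = ∑ x : E → Q, fm p x * (io (x ∈ S) * (I j x / q j)) := by
      intro j
      have h := plant_id' hp1 (C j) (P j) S
      have h2 : ∑ x : E → Q, fm p x * (io (x ∈ S) * (I j x / q j))
          = (∑ x : E → Q, fm p x * (io (x ∈ S) * I j x)) / q j := by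
        rw [sum_div]
        refine sum_congr rfl fun x _ => ?_
        ring
      rw [h2]
      simp only [hI]
      rw [← h, eq_div_iff (hq j).ne', mul_comm]
    rw [sum_congr rfl fun j _ => h1 j, sum_comm, sum_div]
    refine sum_congr rfl fun x _ => ?_
    rw [hX]
    simp only
    rw [← mul_sum, ← mul_sum]
    ring
  rw [hR]
  -- moments of X
  have hX1 : ∑ x : E → Q, fm p x * X x = 1 := by
    have h1 : ∀ x : E → Q, fm p x * X x = (∑ j, fm p x * I j x / q j) / M := by
      intro x
      rw [hX]
      simp only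
      rw [← mul_div_assoc, mul_sum]
      congr 1
      exact sum_congr rfl fun j _ => by ring
    rw [sum_congr rfl fun x _ => h1 x, ← sum_div, sum_comm]
    have h2 : ∀ j, ∑ x : E → Q, fm p x * I j x / q j = 1 := by
      intro j
      rw [← sum_div, htr j]
      exact div_self (hq j).ne'
    rw [sum_congr rfl fun j _ => h2 j]
    simp only [sum_const, card_univ, Fintype.card_fin, nsmul_eq_mul, mul_one]
    exact div_self hMr.ne'
  have hX2 : ∑ x : E → Q, fm p x * (X x) ^ 2 ≤ 1 / (M * a) + 1 := by
    have h1 : ∀ x : E → Q, fm p x * (X x) ^ 2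
        = (∑ j, ∑ k, fm p x * (I j x * I k x) / (q j * q k)) / M ^ 2 := by
      intro x
      rw [hX]
      simp only
      rw [div_pow, sq (∑ j, I j x / q j), sum_mul_sum, ← mul_div_assoc, mul_sum]
      congr 1
      refine sum_congr rfl fun j _ => ?_
      rw [mul_sum]
      refine sum_congr rfl fun k _ => ?_
      rw [div_mul_div_comm]
      ring
    rw [sum_congr rfl fun x _ => h1 x, ← sum_div, sum_comm]
    have h2 : ∀ j k, ∑ x : E → Q, fm p x * (I j x * I k x) / (q j * q k)
        ≤ (if j = k then 1 / a else 0) + 1 := by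
      intro j k
      by_cases hjk : j = k
      · subst hjk
        rw [if_pos rfl]
        have e : ∑ x : E → Q, fm p x * (I j x * I j x) / (q j * q j) = 1 / q j := by
          simp only [hI2]
          rw [← sum_div, htr j]
          rw [div_mul_eq_div_div, div_self (hq j).ne']
        rw [e]
        have : 1 / q j ≤ 1 / a := one_div_le_one_div_of_le ha (hloc j)
        linarith
      · rw [if_neg hjk, zero_add]
        have hd := hdis j k hjk
        set R : E → Q := fun c => if c ∈ C j then P j c else P k c with hRd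
        have hRj : ∀ c ∈ C j, R c = P j c := fun c hc => by rw [hRd]; simp only [if_pos hc]
        have hRk : ∀ c ∈ C k, R c = P k c := fun c hc => by
          have : c ∉ C j := fun h => Finset.disjoint_left.1 hd h hc
          rw [hRd]; simp only [if_neg this]
        have hu := trace_sum' hp1 (C j ∪ C k) R
        have hq2 : fl p (C j ∪ C k) R = q j * q k := by
          rw [fl, prod_union hd]
          congr 1
          · exact fl_congr p hRj
          · exact fl_congr p hRk
        rw [← sum_div, div_le_one (mul_pos (hq j) (hq k)), ← hq2, ← hu]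
        refine sum_le_sum fun x _ => ?_
        refine mul_le_mul_of_nonneg_left ?_ (fm_nonneg hp x)
        simp only [hI]
        by_cases h : ∀ c ∈ C j, x c = P j c
        · by_cases h' : ∀ c ∈ C k, x c = P k c
          · have h3 : ∀ c ∈ C j ∪ C k, x c = R c := by
              intro c hc
              rcases mem_union.1 hc with hc | hc
              · rw [h c hc, hRj c hc]
              · rw [h' c hc, hRk c hc]
            rw [io, if_pos h, io, if_pos h', io, if_pos h3, one_mul]
          · rw [io, io, if_neg h', mul_zero]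
            exact io_nonneg _
        · rw [io, if_neg h, zero_mul]
          exact io_nonneg _
    have h3 : ∀ j, ∑ x : E → Q, ∑ k, fm p x * (I j x * I k x) / (q j * q k) ≤ 1 / a + M := by
      intro j
      rw [sum_comm]
      calc _ ≤ ∑ k : Fin M, ((if j = k then 1 / a else 0) + 1) := sum_le_sum fun k _ => h2 j k
        _ = 1 / a + M := by
            rw [sum_add_distrib]
            simp
    have h4 : ∑ j : Fin M, ∑ x : E → Q, ∑ k, fm p x * (I j x * I k x)
        / (q j * q k) ≤ M * (1 / a + M) := by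
      calc _ ≤ ∑ _j : Fin M, (1 / a + (M : ℝ)) := sum_le_sum fun j _ => h3 j
        _ = _ := by simp; ring
    calc _ ≤ (M * (1 / a + (M : ℝ))) / M ^ 2 := div_le_div_of_nonneg_right h4 (by positivity)
      _ = 1 / (M * a) + 1 := by field_simp
  have hvar : ∑ x : E → Q, fm p x * (1 - X x) ^ 2 ≤ 1 / (M * a) := by
    have e : ∀ x : E → Q, fm p x * (1 - X x) ^ 2
        = fm p x - 2 * (fm p x * X x) + fm p x * (X x) ^ 2 := fun x => by ring
    rw [sum_congr rfl fun x _ => e x, sum_add_distrib, sum_sub_distrib, ← mul_sum, fm_total hp1, hX1]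
    linarith
  -- Cauchy-Schwarz
  have hcs : (∑ x : E → Q, fm p x * (io (x ∈ S) * (1 - X x))) ^ 2 ≤ 1 / (M * a) := by
    have h1 := Finset.sum_mul_sq_le_sq_mul_sq (univ : Finset (E → Q))
      (fun x => Real.sqrt (fm p x) * io (x ∈ S)) (fun x => Real.sqrt (fm p x) * (1 - X x))
    have e1 : ∀ x : E → Q, (Real.sqrt (fm p x) * io (x ∈ S)) * (Real.sqrt (fm p x) * (1 - X x))
        = fm p x * (io (x ∈ S) * (1 - X x)) := by
      intro x
      have := Real.mul_self_sqrt (fm_nonneg hp x)
      calc _ = (Real.sqrt (fm p x) * Real.sqrt (fm p x)) * (io (x ∈ S) * (1 - X x)) := by ring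
        _ = _ := by rw [this]
    have e2 : ∀ x : E → Q, (Real.sqrt (fm p x) * io (x ∈ S)) ^ 2 = fm p x * io (x ∈ S) := by
      intro x
      rw [mul_pow, Real.sq_sqrt (fm_nonneg hp x), sq, io_sq]
    have e3 : ∀ x : E → Q, (Real.sqrt (fm p x) * (1 - X x)) ^ 2 = fm p x * (1 - X x) ^ 2 := by
      intro x
      rw [mul_pow, Real.sq_sqrt (fm_nonneg hp x)]
    simp only [e1, e2, e3] at h1
    have h2 : ∑ x : E → Q, fm p x * io (x ∈ S) ≤ 1 := by
      rw [← fm_total hp1]
      refine sum_le_sum fun x _ => ?_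
      exact mul_le_of_le_one_right (fm_nonneg hp x) (io_le _)
    have h3 : 0 ≤ ∑ x : E → Q, fm p x * (1 - X x) ^ 2 :=
      sum_nonneg fun x _ => mul_nonneg (fm_nonneg hp x) (sq_nonneg _)
    calc _ ≤ _ := h1
      _ ≤ 1 * ∑ x : E → Q, fm p x * (1 - X x) ^ 2 := mul_le_mul_of_nonneg_right h2 h3
      _ ≤ 1 / (M * a) := by rw [one_mul]; exact hvar
  have hle : ∑ x : E → Q, fm p x * (io (x ∈ S) * (1 - X x)) ≤ 1 / Real.sqrt (M * a) := by
    have h1 : |∑ x : E → Q, fm p x * (io (x ∈ S) * (1 - X x))| ≤ Real.sqrt (1 / (M * a)) :=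
      Real.abs_le_sqrt hcs
    rw [Real.sqrt_div zero_le_one, Real.sqrt_one] at h1
    exact (le_abs_self _).trans h1
  have hS : ∑ x ∈ S, fm p x = ∑ x : E → Q, fm p x * io (x ∈ S) := by
    have : ∀ x : E → Q, fm p x * io (x ∈ S) = if x ∈ S then fm p x else 0 := by
      intro x
      by_cases h : x ∈ S <;> simp [io, h]
    rw [sum_congr rfl fun x _ => this x]
    simp
  have hsplit : ∑ x : E → Q, fm p x * (io (x ∈ S) * (1 - X x))
      = ∑ x : E → Q, fm p x * io (x ∈ S) - ∑ x : E → Q, fm p x * (io (x ∈ S) * X x) := by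
    rw [← sum_sub_distrib]
    exact sum_congr rfl fun x _ => by ring
  rw [hS]
  linarith

end Pool.Agent.TH635.PH
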