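import Mathlib
import Pool.Agent.TH635.PH.Main
import Pool.Agent.TH635.PH.Plant2

set_option autoImplicit false

/-!
# Planted patterns in families of words indexed by `[N]^d`
-/

namespace Pool.Agent.TH635.PH

open Finset Pool.Agent.H720R3 Filter Topology

/-- the family contains two words which differ by a `d`-th power, with letters `a` and `b` there -/
def Ga {α Q : Type} [DecidableEq α] (d : ℕ) (a b : Q) (S : Finset ((Fin d → α) → Q)) : Prop :=
  ∃ x ∈ S, ∃ y ∈ S, ∃ γ : Finset α, γ.Nonempty ∧ (∀ c ∈ pw d γ, x c = a ∧ y c = b) ∧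
    ∀ c, c ∉ pw d γ → x c = y c

section

variable {n M N d : ℕ} {Q : Type} [Fintype Q] [DecidableEq Q]

/-- letters of a planted pattern -/
def lt (a b : Q) (h : M * n ≤ N) (j : Fin M) (P : Finset (Fin d → Fin n)) : (Fin d → Fin N) → Q :=
  fun c => if c ∈ tr d h j P then b else a

/-- the family of patterns seen in block `j` -/
def tg (a b : Q) (h : M * n ≤ N) (S : Finset ((Fin d → Fin N) → Q)) (x : (Fin d → Fin N) → Q)
    (j : Fin M) : Finset (Finset (Fin d → Fin n)) :=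
  univ.filter fun P => ov (C d h j) x (lt a b h j P) ∈ S

omit [Fintype Q] in
lemma mem_tg {a b : Q} {h : M * n ≤ N} {S : Finset ((Fin d → Fin N) → Q)}
    {x : (Fin d → Fin N) → Q} {j : Fin M} {P : Finset (Fin d → Fin n)} :
    P ∈ tg a b h S x j ↔ ov (C d h j) x (lt a b h j P) ∈ S := by
  rw [tg, mem_filter]
  exact ⟨fun h => h.2, fun h => ⟨mem_univ _, h⟩⟩

omit [Fintype Q] in
lemma ga_of_tg {a b : Q} {h : M * n ≤ N} {S : Finset ((Fin d → Fin N) → Q)}
    {x : (Fin d → Fin N) → Q} {j : Fin M} (hg : Gd d (tg a b h S x j)) : Ga d a b S := by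
  obtain ⟨X, hX, Y, hY, γ, hγ, hdis, rfl⟩ := hg
  rw [mem_tg] at hX hY
  refine ⟨_, hX, _, hY, γ.image (e h j), hγ.image _, ?_, ?_⟩
  · intro c hc
    rw [← tr_pw] at hc
    have hcC : c ∈ C d h j := tr_sub h j _ hc
    have hcX : c ∉ tr d h j X := by
      intro hcX
      exact (Finset.disjoint_left.1 ((disjoint_image (tr_inj h j)).2 hdis)) hcX hc
    constructor
    · rw [ov, if_pos hcC, lt, if_neg hcX]
    · rw [ov, if_pos hcC, lt, if_pos]
      rw [tr_union]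
      exact mem_union_right _ hc
  · intro c hc
    rw [← tr_pw] at hc
    by_cases hcC : c ∈ C d h j
    · rw [ov, if_pos hcC, ov, if_pos hcC, lt, lt]
      have hiff : c ∈ tr d h j X ↔ c ∈ tr d h j (X ∪ pw d γ) := by
        rw [tr_union, mem_union]
        exact ⟨Or.inl, fun h => h.resolve_right hc⟩
      by_cases hcX : c ∈ tr d h j X
      · rw [if_pos hcX, if_pos (hiff.1 hcX)]
      · rw [if_neg hcX, if_neg fun h' => hcX (hiff.2 h')]
    · rw [ov, if_neg hcC, ov, if_neg hcC]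

/-- planting in blocks, alphabet version -/
lemma plant_blocks' (hd : 1 ≤ d) (h : M * n ≤ N) (hM : 0 < M) {a b : Q}
    {p : (Fin d → Fin N) → Q → ℝ} (hp0 : ∀ c q, 0 ≤ p c q) (hp1 : ∀ c, ∑ q, p c q = 1) {η : ℝ}
    (hη : 0 < η) (hp : ∀ c, η ≤ p c a ∧ η ≤ p c b) (S : Finset ((Fin d → Fin N) → Q))
    (P : Finset (Fin d → Fin n)) :
    ∑ x ∈ S, fm p x - 1 / Real.sqrt (M * η ^ (n ^ d))
      ≤ (∑ j : Fin M, ∑ x : (Fin d → Fin N) → Q, fm p x * io (P ∈ tg a b h S x j)) / M := by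
  have hloc : ∀ j, η ^ (n ^ d) ≤ fl p (C d h j) (lt a b h j P) := by
    intro j
    rw [← card_C (d := d) h j, ← Finset.prod_const, fl]
    refine Finset.prod_le_prod (fun _ _ => hη.le) fun c _ => ?_
    rw [lt]
    split_ifs
    · exact (hp c).2
    · exact (hp c).1
  have := planting' hM hp0 hp1 (fun j => C d h j) (fun j => lt a b h j P)
    (C_disj hd h) (pow_pos hη _) hloc S
  refine this.trans (le_of_eq ?_)
  congr 1
  refine sum_congr rfl fun j _ => sum_congr rfl fun x _ => ?_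
  congr 1
  simp only [io, mem_tg]

/-- the weight of the seen family, alphabet version -/
lemma plant_weight' (hd : 1 ≤ d) (h : M * n ≤ N) (hM : 0 < M) {a b : Q}
    {p : (Fin d → Fin N) → Q → ℝ} (hp0 : ∀ c q, 0 ≤ p c q) (hp1 : ∀ c, ∑ q, p c q = 1) {η : ℝ}
    (hη : 0 < η) (hp : ∀ c, η ≤ p c a ∧ η ≤ p c b) (S : Finset ((Fin d → Fin N) → Q))
    (w : Finset (Fin d → Fin n) → ℝ) (hw : ∀ P, 0 ≤ w P) (hw1 : ∑ P, w P = 1) {ε : ℝ}
    (hwε : ∀ T : Finset (Finset (Fin d → Fin n)), ¬ Gd d T → ∑ P ∈ T, w P ≤ ε)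
    (hS : ¬ Ga d a b S) :
    ∑ x ∈ S, fm p x ≤ ε + 1 / Real.sqrt (M * η ^ (n ^ d)) := by
  have hMr : (0 : ℝ) < M := by exact_mod_cast hM
  have h1 : ∑ P, w P * (∑ x ∈ S, fm p x - 1 / Real.sqrt (M * η ^ (n ^ d)))
      ≤ ∑ P, w P * ((∑ j : Fin M, ∑ x : (Fin d → Fin N) → Q,
        fm p x * io (P ∈ tg a b h S x j)) / M) :=
    sum_le_sum fun P _ => mul_le_mul_of_nonneg_left
      (plant_blocks' hd h hM hp0 hp1 hη hp S P) (hw P)
  rw [← sum_mul, hw1, one_mul] at h1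
  have h2 : ∑ P, w P * ((∑ j : Fin M, ∑ x : (Fin d → Fin N) → Q,
        fm p x * io (P ∈ tg a b h S x j)) / M)
      = (∑ j : Fin M, ∑ x : (Fin d → Fin N) → Q, fm p x * ∑ P ∈ tg a b h S x j, w P) / M := by
    have e1 : ∀ P : Finset (Fin d → Fin n), w P * ((∑ j : Fin M, ∑ x : (Fin d → Fin N) → Q,
        fm p x * io (P ∈ tg a b h S x j)) / M)
        = (∑ j : Fin M, ∑ x : (Fin d → Fin N) → Q,
            fm p x * (w P * io (P ∈ tg a b h S x j))) / M := by
      intro P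
      rw [← mul_div_assoc, mul_sum]
      congr 1
      refine sum_congr rfl fun j _ => ?_
      rw [mul_sum]
      exact sum_congr rfl fun x _ => by ring
    rw [sum_congr rfl fun P _ => e1 P, ← sum_div, sum_comm]
    congr 1
    refine sum_congr rfl fun j _ => ?_
    rw [sum_comm]
    refine sum_congr rfl fun x _ => ?_
    rw [← mul_sum]
    congr 1
    have e2 : ∀ P : Finset (Fin d → Fin n), w P * io (P ∈ tg a b h S x j)
        = if P ∈ tg a b h S x j then w P else 0 := by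
      intro P
      by_cases hP : P ∈ tg a b h S x j <;> simp [io, hP]
    rw [sum_congr rfl fun P _ => e2 P]
    simp
  rw [h2] at h1
  have h3 : (∑ j : Fin M, ∑ x : (Fin d → Fin N) → Q, fm p x * ∑ P ∈ tg a b h S x j, w P) / M
      ≤ ε := by
    rw [div_le_iff₀ hMr]
    have e3 : ∀ j : Fin M, ∑ x : (Fin d → Fin N) → Q, fm p x * ∑ P ∈ tg a b h S x j, w P ≤ ε := by
      intro j
      calc _ ≤ ∑ x : (Fin d → Fin N) → Q, fm p x * ε :=
            sum_le_sum fun x _ => mul_le_mul_of_nonneg_left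
              (hwε _ fun hg => hS (ga_of_tg hg)) (fm_nonneg hp0 x)
        _ = ε := by rw [← sum_mul, fm_total hp1, one_mul]
    calc _ ≤ ∑ _j : Fin M, ε := sum_le_sum fun j _ => e3 j
      _ = ε * M := by simp [mul_comm]
  linarith

end

/-- some weight on one finite cube gives all product measures on all alphabets -/
theorem some_to_words {d : ℕ} (hd : 1 ≤ d) {ε δ : ℝ} (hεδ : ε < δ) {m : ℕ}
    (w : Finset (Fin d → Fin m) → ℝ) (hw : ∀ P, 0 ≤ w P) (hw1 : ∑ P, w P = 1)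
    (hwε : ∀ T : Finset (Finset (Fin d → Fin m)), ε < ∑ P ∈ T, w P → Gd d T) :
    ∃ κ : ℝ, 0 < κ ∧ ∃ N₀ : ℕ, ∀ N : ℕ, N₀ ≤ N → ∀ (Q : Type) [Fintype Q] [DecidableEq Q]
      (a b : Q) (p : (Fin d → Fin N) → Q → ℝ), (∀ c q, 0 ≤ p c q) → (∀ c, ∑ q, p c q = 1) →
      (∀ c, (N : ℝ) ^ (-κ) ≤ p c a ∧ (N : ℝ) ^ (-κ) ≤ p c b) →
        ∀ S : Finset ((Fin d → Fin N) → Q), δ < ∑ x ∈ S, fm p x → Ga d a b S := by
  refine ⟨kap (m ^ d), kap_pos _, ?_⟩
  obtain ⟨N₀, hN₀⟩ := numeric m (m ^ d) (sub_pos.2 hεδ)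
  refine ⟨N₀, fun N hN Q _ _ a b p hp0 hp1 hp S hS => ?_⟩
  obtain ⟨h1, hM, hle, herr⟩ := hN₀ N hN
  by_contra hbad
  have hη : 0 < (N : ℝ) ^ (-kap (m ^ d)) := Real.rpow_pos_of_pos (by exact_mod_cast h1) _
  have := plant_weight' hd hle hM hp0 hp1 hη hp S w hw hw1 (ε := ε)
    (fun T hT => by
      by_contra hcon
      exact hT (hwε T (not_le.1 hcon))) hbad
  linarith

/-- words over two letters and sets -/
lemma ga_bool {d N : ℕ} (S : Finset (Finset (Fin d → Fin N)))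
    (h : Ga d false true (S.image fun A => fun c : Fin d → Fin N => decide (c ∈ A))) : Gd d S := by
  obtain ⟨x, hx, y, hy, γ, hγ, h1, h2⟩ := h
  rw [mem_image] at hx hy
  obtain ⟨A, hA, rfl⟩ := hx
  obtain ⟨B, hB, rfl⟩ := hy
  refine ⟨A, hA, B, hB, γ, hγ, ?_, ?_⟩
  · rw [Finset.disjoint_left]
    intro c hcA hc
    have := (h1 c hc).1
    simp only [decide_eq_false_iff_not] at this
    exact this hcA
  · ext c
    rw [mem_union]
    by_cases hc : c ∈ pw d γ
    · have := (h1 c hc).2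
      simp only [decide_eq_true_eq] at this
      exact ⟨fun _ => Or.inr hc, fun _ => this⟩
    · have := h2 c hc
      simp only [decide_eq_decide] at this
      exact ⟨fun h => Or.inl (this.2 h), fun h => this.1 (h.resolve_right hc)⟩

lemma bool_sum {d N : ℕ} (S : Finset (Finset (Fin d → Fin N))) :
    ∑ x ∈ S.image (fun A => fun c : Fin d → Fin N => decide (c ∈ A)),
      fm (fun _ _ => (1 / 2 : ℝ)) x = (S.card : ℝ) / 2 ^ (N ^ d) := by
  have hinj : Function.Injective (fun A : Finset (Fin d → Fin N) => fun c : Fin d → Fin N =>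
      decide (c ∈ A)) := by
    intro A B hAB
    ext c
    have := congrFun hAB c
    simpa using this
  rw [sum_image fun A _ B _ h => hinj h]
  have : ∀ A ∈ S, fm (fun _ _ => (1 / 2 : ℝ)) (fun c : Fin d → Fin N => decide (c ∈ A))
      = (1 / 2) ^ (N ^ d) := by
    intro A _
    unfold fm
    simp
  rw [sum_congr rfl this]
  simp [div_eq_mul_inv]

/-- all product measures on words gives the uniform measure on sets -/
theorem words_to_uniform {d : ℕ} {δ κ : ℝ} (hκ : 0 < κ)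
    (h : ∃ N₀ : ℕ, ∀ N : ℕ, N₀ ≤ N → ∀ (Q : Type) [Fintype Q] [DecidableEq Q]
      (a b : Q) (p : (Fin d → Fin N) → Q → ℝ), (∀ c q, 0 ≤ p c q) → (∀ c, ∑ q, p c q = 1) →
      (∀ c, (N : ℝ) ^ (-κ) ≤ p c a ∧ (N : ℝ) ^ (-κ) ≤ p c b) →
        ∀ S : Finset ((Fin d → Fin N) → Q), δ < ∑ x ∈ S, fm p x → Ga d a b S) :
    ∃ N₀ : ℕ, ∀ N : ℕ, N₀ ≤ N → ∀ S : Finset (Finset (Fin d → Fin N)),
      δ * 2 ^ (N ^ d) < S.card → Gd d S := by
  obtain ⟨N₀, hN₀⟩ := h
  have h1 : Tendsto (fun N : ℕ => (N : ℝ) ^ (-κ)) atTop (𝓝 0) :=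
    (tendsto_rpow_neg_atTop hκ).comp tendsto_natCast_atTop_atTop
  have h2 : ∀ᶠ N : ℕ in atTop, (N : ℝ) ^ (-κ) < 1 / 2 :=
    h1.eventually (gt_mem_nhds (by norm_num))
  obtain ⟨N₁, hN₁⟩ := eventually_atTop.1 h2
  refine ⟨max N₀ N₁, fun N hN S hS => ?_⟩
  have h3 := hN₁ N (le_trans (le_max_right _ _) hN)
  refine ga_bool S (hN₀ N (le_trans (le_max_left _ _) hN) Bool false true (fun _ _ => 1 / 2)
    (fun _ _ => by norm_num) (fun _ => by simp) (fun c => ⟨h3.le, h3.le⟩) _ ?_)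
  rw [bool_sum, lt_div_iff₀ (by positivity)]
  exact hS

end Pool.Agent.TH635.PH
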