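import Mathlib
import Pool.Agent.TH635.PH.Main

set_option autoImplicit false

/-!
# Supersaturation
-/

namespace Pool.Agent.TH635.PH

open Finset Pool.Agent.H720R3

variable {N d : ℕ}

/-- the pairs `(A, γ)` with `A` and `A ∪ γ^d` in the family, `A` disjoint from `γ^d` -/
def prs (S : Finset (Finset (Fin d → Fin N))) (q : Finset (Fin d → Fin N) × Finset (Fin N)) :
    Prop := q.2.Nonempty ∧ q.1 ∈ S ∧ Disjoint q.1 (pw d q.2) ∧ q.1 ∪ pw d q.2 ∈ S

instance (S : Finset (Finset (Fin d → Fin N))) : DecidablePred (prs S) := fun q => by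
  unfold prs; infer_instance

/-- counting in one sub-cube -/
lemma good_count {n : ℕ} {S : Finset (Finset (Fin d → Fin N))} {δ' δ'' : ℝ}
    (hn : ∀ T : Finset (Finset (Fin d → Fin n)), δ'' * 2 ^ (n ^ d) < T.card → Gd d T)
    (hS : δ' * 2 ^ (N ^ d) < S.card) (V : Finset (Fin N)) (hV : V.card = n) :
    (δ' - δ'') * 2 ^ (N ^ d) ≤ 2 ^ (n ^ d) *
      ((univ.filter fun q : Finset (Fin d → Fin N) × Finset (Fin N) =>
        prs S q ∧ q.2 ⊆ V).card : ℝ) := by
  classical
  -- the embedding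
  set eq := V.equivFinOfCardEq hV with heq
  set φ : Fin n → Fin N := fun i => (eq.symm i : Fin N) with hφ
  have hφinj : Function.Injective φ := fun i j h => eq.symm.injective (Subtype.ext h)
  have hφV : ∀ i, φ i ∈ V := fun i => (eq.symm i).2
  have hφs : ∀ v ∈ V, ∃ i, φ i = v := fun v hv => ⟨eq ⟨v, hv⟩, by rw [hφ]; simp⟩
  set C : Finset (Fin d → Fin N) := pw d V with hC
  have hCc : C.card = n ^ d := by
    rw [hC, pw, Fintype.card_piFinset]
    simp [hV]
  set g : (Fin d → Fin n) → (Fin d → Fin N) := fun x i => φ (x i) with hg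
  have hginj : Function.Injective g := fun x y h => funext fun i => hφinj (congrFun h i)
  set t : Finset (Fin d → Fin n) → Finset (Fin d → Fin N) := fun P => P.image g with ht
  have htinj : Function.Injective t := Finset.image_injective hginj
  have htC : ∀ P, t P ⊆ C := by
    intro P y hy
    rw [ht, mem_image] at hy
    obtain ⟨x, -, rfl⟩ := hy
    rw [hC, mem_pw]
    exact fun i => hφV _
  have htsurj : ∀ D : Finset (Fin d → Fin N), D ⊆ C → ∃ P, t P = D := by
    intro D hD
    refine ⟨univ.filter fun x => g x ∈ D, ?_⟩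
    ext y
    rw [ht]
    simp only [mem_image, mem_filter, mem_univ, true_and]
    constructor
    · rintro ⟨x, hx, rfl⟩
      exact hx
    · intro hy
      have hy2 := hD hy
      rw [hC, mem_pw] at hy2
      choose x hx using fun i => hφs _ (hy2 i)
      exact ⟨x, by rw [hg]; simp only [hx]; exact hy, by rw [hg]; funext i; exact hx i⟩
  have htpw : ∀ γ : Finset (Fin n), t (pw d γ) = pw d (γ.image φ) := by
    intro γ
    ext y
    rw [ht, mem_image, mem_pw]
    constructor
    · rintro ⟨x, hx, rfl⟩ i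
      rw [mem_pw] at hx
      exact mem_image_of_mem _ (hx i)
    · intro hy
      choose x hx hxy using fun i => mem_image.1 (hy i)
      exact ⟨x, mem_pw.2 hx, funext hxy⟩
  set T : Finset (Fin d → Fin N) → Finset (Finset (Fin d → Fin n)) := fun A =>
    univ.filter fun P => (A \ C) ∪ t P ∈ S with hT
  -- total size of the T A
  have hsum : ∑ A : Finset (Fin d → Fin N), ((T A).card : ℝ) = 2 ^ (n ^ d) * S.card := by
    have e1 : ∀ A, ((T A).card : ℝ) = ∑ P, io ((A \ C) ∪ t P ∈ S) := by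
      intro A
      rw [hT]
      simp only [io]
      rw [Finset.sum_boole]
    rw [sum_congr rfl fun A _ => e1 A, sum_comm]
    have e2 : ∀ P, ∑ A : Finset (Fin d → Fin N), io ((A \ C) ∪ t P ∈ S)
        = 2 ^ (n ^ d) * ∑ A : Finset (Fin d → Fin N), io (A ∈ S) * io (A ∩ C = t P) := by
      intro P
      have h := plant_id (fun _ : Fin d → Fin N => (1 / 2 : ℝ)) C (t P) (htC P) S
      have hl : loc (fun _ : Fin d → Fin N => (1 / 2 : ℝ)) C (t P) = (1 / 2) ^ (n ^ d) := by
        rw [loc, ← hCc, ← prod_const]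
        refine prod_congr rfl fun c _ => ?_
        split_ifs <;> norm_num
      rw [hl] at h
      simp only [pm_half] at h
      rw [← mul_sum, ← mul_sum] at h
      have hpos : (0 : ℝ) < (1 / 2) ^ Fintype.card (Fin d → Fin N) := by positivity
      have h2 : (1 / 2 : ℝ) ^ (n ^ d) * ∑ A : Finset (Fin d → Fin N), io ((A \ C) ∪ t P ∈ S)
          = ∑ A : Finset (Fin d → Fin N), io (A ∈ S) * io (A ∩ C = t P) := by
        have h3 : (1 / 2 : ℝ) ^ Fintype.card (Fin d → Fin N) *
            ((1 / 2 : ℝ) ^ (n ^ d) * ∑ A : Finset (Fin d → Fin N), io ((A \ C) ∪ t P ∈ S))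
            = (1 / 2 : ℝ) ^ Fintype.card (Fin d → Fin N) *
              ∑ A : Finset (Fin d → Fin N), io (A ∈ S) * io (A ∩ C = t P) := by
          rw [← h]; ring
        exact mul_left_cancel₀ hpos.ne' h3
      rw [← h2, ← mul_assoc, ← mul_pow]
      norm_num
    rw [sum_congr rfl fun P _ => e2 P, ← mul_sum, sum_comm]
    congr 1
    have e3 : ∀ A : Finset (Fin d → Fin N), ∑ P, io (A ∈ S) * io (A ∩ C = t P) = io (A ∈ S) := by
      intro A
      obtain ⟨P, hP⟩ := htsurj (A ∩ C) inter_subset_right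
      rw [← mul_sum]
      have : ∀ P', io (A ∩ C = t P') = if P' = P then 1 else 0 := by
        intro P'
        rw [← hP]
        unfold io
        by_cases h : P' = P
        · subst h; simp
        · rw [if_neg h, if_neg fun h' => h (htinj h').symm]
      rw [sum_congr rfl fun P' _ => this P']
      simp
    rw [sum_congr rfl fun A _ => e3 A]
    unfold io
    rw [Finset.sum_boole]
    congr 2
    ext A
    simp
  -- the good A
  set G := univ.filter (fun A : Finset (Fin d → Fin N) => Gd d (T A)) with hG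
  have hδ'' : 0 ≤ δ'' := by
    by_contra hneg
    have h := hn ∅ (by
      rw [card_empty, Nat.cast_zero]
      exact mul_neg_of_neg_of_pos (not_le.1 hneg) (by positivity))
    obtain ⟨X, hX, -⟩ := h
    exact absurd hX (notMem_empty _)
  have hGc : (δ' - δ'') * 2 ^ (N ^ d) ≤ G.card := by
    have h1 : ∀ A, ((T A).card : ℝ) ≤ (if A ∈ G then 2 ^ (n ^ d) else 0) + δ'' * 2 ^ (n ^ d) := by
      intro A
      by_cases hA : A ∈ G
      · rw [if_pos hA]
        have : (T A).card ≤ Fintype.card (Finset (Fin d → Fin n)) := card_le_univ _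
        rw [Fintype.card_finset, Fintype.card_fun, Fintype.card_fin, Fintype.card_fin] at this
        have h2 : ((T A).card : ℝ) ≤ 2 ^ (n ^ d) := by exact_mod_cast this
        have : 0 ≤ δ'' * 2 ^ (n ^ d) := by positivity
        linarith
      · rw [if_neg hA, zero_add]
        by_contra hcon
        exact hA (by rw [hG, mem_filter]; exact ⟨mem_univ _, hn _ (not_le.1 hcon)⟩)
    have h2 : (2 : ℝ) ^ (n ^ d) * S.card
        ≤ 2 ^ (n ^ d) * G.card + 2 ^ (N ^ d) * (δ'' * 2 ^ (n ^ d)) := by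
      rw [← hsum]
      refine (sum_le_sum fun A _ => h1 A).trans (le_of_eq ?_)
      rw [sum_add_distrib]
      simp [mul_comm]
    have h3 : (0 : ℝ) < 2 ^ (n ^ d) := by positivity
    have h4 : (S.card : ℝ) ≤ G.card + 2 ^ (N ^ d) * δ'' := by
      have : (2 : ℝ) ^ (n ^ d) * S.card ≤ 2 ^ (n ^ d) * (G.card + 2 ^ (N ^ d) * δ'') := by
        linarith
      exact le_of_mul_le_mul_left this h3
    linarith
  -- from good A to pairs
  have hex : ∀ A : Finset (Fin d → Fin N), A ∈ G →
      ∃ q : Finset (Fin d → Fin N) × Finset (Fin N), (prs S q ∧ q.2 ⊆ V) ∧ q.1 \ C = A \ C := by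
    intro A hA
    obtain ⟨X, hX, Y, hY, γ, hγ, hdis, rfl⟩ := (mem_filter.1 hA).2
    rw [hT, mem_filter] at hX hY
    refine ⟨((A \ C) ∪ t X, γ.image φ), ⟨⟨hγ.image _, hX.2, ?_, ?_⟩, ?_⟩, ?_⟩
    · simp only
      rw [← htpw, disjoint_union_left]
      refine ⟨Finset.disjoint_of_subset_right (htC _) Finset.sdiff_disjoint, ?_⟩
      exact (disjoint_image hginj).2 hdis
    · simp only
      rw [← htpw, union_assoc]
      have : t X ∪ t (pw d γ) = t (X ∪ pw d γ) := (image_union _ _).symm
      rw [this]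
      exact hY.2
    · intro v hv
      simp only [mem_image] at hv
      obtain ⟨i, -, rfl⟩ := hv
      exact hφV i
    · simp only
      rw [union_sdiff_distrib, _root_.sdiff_idem, sdiff_eq_empty_iff_subset.2 (htC X), union_empty]
  choose! f hf1 hf2 using hex
  have hfib : ∀ b ∈ G.image f, (G.filter fun A => f A = b).card ≤ 2 ^ (n ^ d) := by
    intro b _
    rw [← hCc, ← card_powerset]
    refine card_le_card_of_injOn (fun A => A ∩ C) (fun A _ => ?_) ?_
    · simp only [coe_powerset, Set.mem_preimage, Set.mem_powerset_iff, coe_subset]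
      exact inter_subset_right
    · intro A hA B hB hAB
      simp only [coe_filter, Set.mem_ofPred_eq] at hA hB hAB
      have h1 := hf2 A hA.1
      have h2 := hf2 B hB.1
      rw [hA.2] at h1
      rw [hB.2] at h2
      rw [← sdiff_union_inter A C, ← sdiff_union_inter B C, ← h1, ← h2, hAB]
  have hcard := card_le_mul_card_image (f := f) G (2 ^ (n ^ d)) hfib
  have himg : (G.image f).card ≤ (univ.filter fun q : Finset (Fin d → Fin N) × Finset (Fin N) =>
        prs S q ∧ q.2 ⊆ V).card := by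
    refine card_le_card fun q hq => ?_
    rw [mem_image] at hq
    obtain ⟨A, hA, rfl⟩ := hq
    rw [mem_filter]
    exact ⟨mem_univ _, hf1 A hA⟩
  have hfin : G.card ≤ 2 ^ (n ^ d) * (univ.filter fun q : Finset (Fin d → Fin N) × Finset (Fin N) =>
        prs S q ∧ q.2 ⊆ V).card := hcard.trans (Nat.mul_le_mul_left _ himg)
  have hfin' : (G.card : ℝ) ≤ 2 ^ (n ^ d) *
      ((univ.filter fun q : Finset (Fin d → Fin N) × Finset (Fin N) =>
        prs S q ∧ q.2 ⊆ V).card : ℝ) := by exact_mod_cast hfin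
  linarith

/-- **Supersaturation.** -/
theorem many {n : ℕ} {δ' δ'' : ℝ} (hδ : δ'' < δ')
    (hn : ∀ T : Finset (Finset (Fin d → Fin n)), δ'' * 2 ^ (n ^ d) < T.card → Gd d T)
    (hN : n ≤ N) {S : Finset (Finset (Fin d → Fin N))} (hS : δ' * 2 ^ (N ^ d) < S.card) :
    ∃ k : ℕ, 1 ≤ k ∧ k ≤ n ∧ (δ' - δ'') / 2 ^ (n ^ d + n) * 2 ^ (N ^ d) * (N.choose k) ≤
      ((univ.filter fun q : Finset (Fin d → Fin N) × Finset (Fin N) =>
        prs S q ∧ q.2.card = k).card : ℝ) := by
  classical
  by_contra hcon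
  push Not at hcon
  set c : ℝ := (δ' - δ'') / 2 ^ (n ^ d + n) with hc
  have hcpos : 0 < c := div_pos (sub_pos.2 hδ) (by positivity)
  set PP := univ.filter (fun q : Finset (Fin d → Fin N) × Finset (Fin N) => prs S q) with hPP
  set VV := powersetCard n (univ : Finset (Fin N)) with hVV
  have hVVc : VV.card = N.choose n := by rw [hVV, card_powersetCard]; simp
  -- lower bound
  have hlow : (N.choose n : ℝ) * ((δ' - δ'') * 2 ^ (N ^ d)) ≤ 2 ^ (n ^ d) *
      ∑ V ∈ VV, ((PP.filter fun q => q.2 ⊆ V).card : ℝ) := by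
    rw [mul_sum, ← hVVc, ← nsmul_eq_mul]
    refine card_nsmul_le_sum _ _ _ fun V hV => ?_
    have hV2 : V.card = n := (mem_powersetCard.1 hV).2
    have := good_count hn hS V hV2
    rw [hPP, filter_filter]
    exact this
  -- double counting
  have hdc : ∑ V ∈ VV, ((PP.filter fun q => q.2 ⊆ V).card : ℝ)
      = ∑ q ∈ PP, ((VV.filter fun V => q.2 ⊆ V).card : ℝ) := by
    have e1 : ∀ V ∈ VV, ((PP.filter fun q => q.2 ⊆ V).card : ℝ)
        = ∑ q ∈ PP, if q.2 ⊆ V then (1 : ℝ) else 0 := fun V _ => by rw [Finset.sum_boole]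
    have e2 : ∀ q ∈ PP, ((VV.filter fun V => q.2 ⊆ V).card : ℝ)
        = ∑ V ∈ VV, if q.2 ⊆ V then (1 : ℝ) else 0 := fun q _ => by rw [Finset.sum_boole]
    rw [sum_congr rfl e1, sum_congr rfl e2, sum_comm]
  -- number of V above q
  have hV : ∀ q ∈ PP, ((VV.filter fun V => q.2 ⊆ V).card : ℝ)
      ≤ if q.2.card ≤ n then (((N - q.2.card).choose (n - q.2.card) : ℕ) : ℝ) else 0 := by
    intro q _
    by_cases hq : q.2.card ≤ n
    · rw [if_pos hq]
      have h1 : (VV.filter fun V => q.2 ⊆ V).card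
          ≤ (powersetCard (n - q.2.card) (q.2)ᶜ).card := by
        refine card_le_card_of_injOn (fun V => V \ q.2) (fun V hV => ?_) ?_
        · simp only [coe_filter, Set.mem_ofPred_eq] at hV
          have hVc := (mem_powersetCard.1 hV.1).2
          rw [mem_coe, mem_powersetCard]
          refine ⟨fun v hv => mem_compl.2 (mem_sdiff.1 hv).2, ?_⟩
          rw [card_sdiff_of_subset hV.2, hVc]
        · intro V hV W hW hVW
          simp only [coe_filter, Set.mem_ofPred_eq] at hV hW hVW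
          rw [← sdiff_union_of_subset hV.2, ← sdiff_union_of_subset hW.2, hVW]
      rw [card_powersetCard, card_compl, Fintype.card_fin] at h1
      exact_mod_cast h1
    · rw [if_neg hq]
      have : VV.filter (fun V => q.2 ⊆ V) = ∅ := by
        rw [filter_eq_empty_iff]
        intro V hV hqV
        have hVc := (mem_powersetCard.1 hV).2
        exact hq (hVc ▸ card_le_card hqV)
      rw [this, card_empty, Nat.cast_zero]
  have hup : ∑ q ∈ PP, ((VV.filter fun V => q.2 ⊆ V).card : ℝ)
      ≤ ∑ k ∈ Icc 1 n, ((univ.filter fun q : Finset (Fin d → Fin N) × Finset (Fin N) =>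
        prs S q ∧ q.2.card = k).card : ℝ) * (((N - k).choose (n - k) : ℕ) : ℝ) := by
    refine (sum_le_sum hV).trans (le_of_eq ?_)
    rw [← sum_filter]
    have hmaps : ∀ q ∈ PP.filter (fun q => q.2.card ≤ n), q.2.card ∈ Icc 1 n := by
      intro q hq
      rw [mem_filter] at hq
      rw [mem_Icc]
      exact ⟨card_pos.2 (mem_filter.1 hq.1).2.1, hq.2⟩
    rw [← sum_fiberwise_of_maps_to hmaps]
    refine sum_congr rfl fun k hk => ?_
    rw [mem_Icc] at hk
    have e : (PP.filter (fun q => q.2.card ≤ n)).filter (fun q => q.2.card = k)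
        = univ.filter (fun q : Finset (Fin d → Fin N) × Finset (Fin N) =>
          prs S q ∧ q.2.card = k) := by
      ext q
      rw [mem_filter, mem_filter, mem_filter, mem_filter]
      constructor
      · rintro ⟨⟨⟨-, h1⟩, -⟩, h3⟩
        exact ⟨mem_univ _, h1, h3⟩
      · rintro ⟨-, h1, h3⟩
        exact ⟨⟨⟨mem_univ _, h1⟩, by omega⟩, h3⟩
    rw [e]
    rw [sum_congr rfl fun q hq => by rw [(mem_filter.1 hq).2.2]]
    rw [sum_const, nsmul_eq_mul]
  have hn1 : 1 ≤ n := by
    by_contra h0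
    have h00 : n = 0 := by omega
    subst h00
    rw [hdc] at hlow
    have h2 := hup
    rw [show Icc 1 0 = (∅ : Finset ℕ) from rfl, sum_empty] at h2
    have h3 : (0 : ℝ) < (N.choose 0 : ℝ) * ((δ' - δ'') * 2 ^ (N ^ d)) := by
      have : 0 < δ' - δ'' := sub_pos.2 hδ
      simp only [Nat.choose_zero_right, Nat.cast_one, one_mul]
      positivity
    have h4 : (0 : ℝ) < 2 ^ (0 ^ d) := by positivity
    nlinarith
  have hlt : ∑ k ∈ Icc 1 n, ((univ.filter fun q : Finset (Fin d → Fin N) × Finset (Fin N) =>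
        prs S q ∧ q.2.card = k).card : ℝ) * (((N - k).choose (n - k) : ℕ) : ℝ)
      < ∑ k ∈ Icc 1 n, (c * 2 ^ (N ^ d) * (N.choose n : ℝ)) * (n.choose k : ℝ) := by
    refine sum_lt_sum_of_nonempty ⟨1, mem_Icc.2 ⟨le_rfl, hn1⟩⟩ fun k hk => ?_
    rw [mem_Icc] at hk
    have h1 := hcon k hk.1 hk.2
    have hpos : (0 : ℝ) < (((N - k).choose (n - k) : ℕ) : ℝ) := by
      exact_mod_cast Nat.choose_pos (by omega)
    have hch : N.choose n * n.choose k = N.choose k * (N - k).choose (n - k) :=
      Nat.choose_mul hk.2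
    have hch' : (N.choose n : ℝ) * (n.choose k : ℝ)
        = (N.choose k : ℝ) * (((N - k).choose (n - k) : ℕ) : ℝ) := by exact_mod_cast hch
    calc _ < (c * 2 ^ (N ^ d) * (N.choose k : ℝ)) * (((N - k).choose (n - k) : ℕ) : ℝ) :=
          mul_lt_mul_of_pos_right h1 hpos
      _ = c * 2 ^ (N ^ d) * ((N.choose k : ℝ) * (((N - k).choose (n - k) : ℕ) : ℝ)) := by ring
      _ = _ := by rw [← hch']; ring
  have hch2 : ∑ k ∈ Icc 1 n, (n.choose k : ℝ) ≤ 2 ^ n := by
    have h1 : ∑ k ∈ range (n + 1), n.choose k = 2 ^ n := Nat.sum_range_choose n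
    have h2 : ∑ k ∈ Icc 1 n, n.choose k ≤ ∑ k ∈ range (n + 1), n.choose k := by
      refine sum_le_sum_of_subset fun k hk => ?_
      rw [mem_Icc] at hk
      rw [mem_range]
      omega
    rw [h1] at h2
    exact_mod_cast h2
  rw [← mul_sum] at hlt
  have hNn : (0 : ℝ) < (N.choose n : ℝ) := by exact_mod_cast Nat.choose_pos hN
  have h5 : c * 2 ^ (N ^ d) * (N.choose n : ℝ) * ∑ k ∈ Icc 1 n, (n.choose k : ℝ)
      ≤ c * 2 ^ (N ^ d) * (N.choose n : ℝ) * 2 ^ n :=
    mul_le_mul_of_nonneg_left hch2 (by positivity)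
  have h6 : (N.choose n : ℝ) * ((δ' - δ'') * 2 ^ (N ^ d))
      < 2 ^ (n ^ d) * (c * 2 ^ (N ^ d) * (N.choose n : ℝ) * 2 ^ n) := by
    refine lt_of_le_of_lt hlow ?_
    rw [hdc]
    refine mul_lt_mul_of_pos_left (lt_of_le_of_lt hup (lt_of_lt_of_le hlt h5)) (by positivity)
  have h7 : (2 : ℝ) ^ (n ^ d) * (c * 2 ^ (N ^ d) * (N.choose n : ℝ) * 2 ^ n)
      = (N.choose n : ℝ) * ((δ' - δ'') * 2 ^ (N ^ d)) := by
    rw [hc, pow_add]
    field_simp
  linarith

end Pool.Agent.TH635.PH
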